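import Pool.Agent.Y273.VI.Rc

/-! # Functions `h(λmax / λmin) + f(det)`: first consequences of rank-one convexity -/

set_option autoImplicit false

namespace Pool.Agent.Y273.VS

open MeasureTheory Set Filter Topology
open Pool.Agent.Y273.VI (RCp)

/-- the quotient of the singular values -/
noncomputable def KK (F : ℂ × ℂ) : ℝ := (‖F.1‖ + ‖F.2‖) / (‖F.1‖ - ‖F.2‖)

/-- the determinant -/
noncomputable def JJ (F : ℂ × ℂ) : ℝ := ‖F.1‖ ^ 2 - ‖F.2‖ ^ 2

/-- the function -/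
noncomputable def hf (h f : ℝ → ℝ) (F : ℂ × ℂ) : ℝ := h (KK F) + f (JJ F)

variable {h f : ℝ → ℝ}

theorem norm_diag {s v : ℝ} (hs : 0 < s) (hv : 0 < v) :
    ‖(((v + s) / 2 : ℝ) : ℂ)‖ = (v + s) / 2 ∧ ‖(((v - s) / 2 : ℝ) : ℂ)‖ = |v - s| / 2 := by
  constructor
  · rw [Complex.norm_real, Real.norm_of_nonneg (by positivity)]
  · rw [Complex.norm_real, Real.norm_eq_abs, abs_div, abs_of_pos (by norm_num : (0 : ℝ) < 2)]

theorem abs_lt_add {s v : ℝ} (hs : 0 < s) (hv : 0 < v) : |v - s| < v + s := by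
  rw [abs_lt]
  constructor <;> linarith

theorem hf_diag {s v : ℝ} (hs : 0 < s) (hv : 0 < v) :
    hf h f ((((v + s) / 2 : ℝ) : ℂ), (((v - s) / 2 : ℝ) : ℂ))
      = h (max s v / min s v) + f (s * v) := by
  obtain ⟨h1, h2⟩ := norm_diag hs hv
  unfold hf KK JJ
  simp only [h1, h2]
  congr 1
  · congr 1
    rcases le_total s v with hsv | hsv
    · rw [max_eq_right hsv, min_eq_left hsv, abs_of_nonneg (by linarith)]
      congr 1 <;> ring
    · rw [max_eq_left hsv, min_eq_right hsv, abs_of_nonpos (by linarith)]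
      congr 1 <;> ring
  · congr 1
    rw [div_pow, div_pow, sq_abs]
    ring

theorem diag_conv (hR : RCp (hf h f)) {v : ℝ} (hv : 0 < v) :
    ConvexOn ℝ (Ioi 0) (fun s => h (max s v / min s v) + f (s * v)) := by
  refine ⟨convex_Ioi 0, fun x hx y hy α β hα hβ hαβ => ?_⟩
  have hx0 : (0 : ℝ) < x := hx
  have hy0 : (0 : ℝ) < y := hy
  have hz : (0 : ℝ) < α • x + β • y := (convex_Ioi 0) hx hy hα hβ hαβ
  have hn : ∀ s : ℝ, 0 < s → ‖(((v - s) / 2 : ℝ) : ℂ)‖ < ‖(((v + s) / 2 : ℝ) : ℂ)‖ := by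
    intro s hs
    obtain ⟨h1, h2⟩ := norm_diag hs hv
    rw [h1, h2]
    have := abs_lt_add hs hv
    linarith
  have e1 : ((((v + x) / 2 : ℝ) : ℂ), (((v - x) / 2 : ℝ) : ℂ))
      + ((((y - x) / 2 : ℝ) : ℂ), ((-((y - x) / 2) : ℝ) : ℂ))
      = ((((v + y) / 2 : ℝ) : ℂ), (((v - y) / 2 : ℝ) : ℂ)) := by
    rw [Prod.mk_add_mk]
    congr 1 <;> (push_cast; ring)
  have key := hR ((((v + x) / 2 : ℝ) : ℂ), (((v - x) / 2 : ℝ) : ℂ))
    ((((y - x) / 2 : ℝ) : ℂ), ((-((y - x) / 2) : ℝ) : ℂ)) (by simp) (hn x hx0)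
    (by rw [e1]; exact hn y hy0) β hβ (by linarith)
  have hα' : α = 1 - β := by linarith
  have e2 : ((((v + x) / 2 : ℝ) : ℂ), (((v - x) / 2 : ℝ) : ℂ))
      + β • ((((y - x) / 2 : ℝ) : ℂ), ((-((y - x) / 2) : ℝ) : ℂ))
      = ((((v + (α • x + β • y)) / 2 : ℝ) : ℂ), (((v - (α • x + β • y)) / 2 : ℝ) : ℂ)) := by
    rw [Prod.smul_mk, Prod.mk_add_mk]
    simp only [Complex.real_smul, smul_eq_mul]
    rw [hα']
    congr 1 <;> (push_cast; ring)
  rw [e1, e2, hf_diag hx0 hv, hf_diag hy0 hv, hf_diag hz hv] at key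
  simp only [smul_eq_mul] at key ⊢
  rw [hα'] at key ⊢
  exact key

/-- `h` is nondecreasing -/
theorem h_mono (hR : RCp (hf h f)) : MonotoneOn h (Ici 1) := by
  intro K hK K' hK' hKK
  have hK1 : (1 : ℝ) ≤ K := hK
  have hK1' : (1 : ℝ) ≤ K' := hK'
  have hK0 : 0 < K := by linarith
  have hK0' : 0 < K' := by linarith
  set r : ℝ := Real.sqrt K with hr
  set r' : ℝ := Real.sqrt K' with hr'
  have hr1 : 1 ≤ r := by rw [hr]; exact Real.one_le_sqrt.2 hK1
  have hr1' : 1 ≤ r' := by rw [hr']; exact Real.one_le_sqrt.2 hK1'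
  have hrK : r ^ 2 = K := Real.sq_sqrt hK0.le
  have hrK' : r' ^ 2 = K' := Real.sq_sqrt hK0'.le
  have hrr : r ≤ r' := Real.sqrt_le_sqrt hKK
  have hr0 : 0 < r := by linarith
  have hr0' : 0 < r' := by linarith
  have hinv : r⁻¹ ≤ r := by
    rw [inv_le_comm₀ hr0 hr0]
    have : r⁻¹ ≤ 1 := inv_le_one_of_one_le₀ hr1
    linarith
  have hinv' : r'⁻¹ ≤ r' := by
    have : r'⁻¹ ≤ 1 := inv_le_one_of_one_le₀ hr1'
    linarith
  set p : ℝ := (r + r⁻¹) / 2 with hp
  set q : ℝ := (r - r⁻¹) / 2 with hq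
  set p' : ℝ := (r' + r'⁻¹) / 2 with hp'
  set q' : ℝ := (r' - r'⁻¹) / 2 with hq'
  have hpq : p ^ 2 - q ^ 2 = 1 := by
    rw [hp, hq]; field_simp; ring
  have hpq' : p' ^ 2 - q' ^ 2 = 1 := by
    rw [hp', hq']; field_simp; ring
  have hq0 : 0 ≤ q := by rw [hq]; linarith
  have hq0' : 0 ≤ q' := by rw [hq']; linarith
  have hi : 0 < r⁻¹ := inv_pos.2 hr0
  have hi' : 0 < r'⁻¹ := inv_pos.2 hr0'
  have hp0 : 0 < p := by rw [hp]; positivity
  have hp0' : 0 < p' := by rw [hp']; positivity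
  have hqq : q ≤ q' := by
    have : r'⁻¹ ≤ r⁻¹ := inv_anti₀ hr0 hrr
    rw [hq, hq']; linarith
  set τ : ℝ := Real.sqrt (q' ^ 2 - q ^ 2) with hτ
  have hτ2 : τ ^ 2 = q' ^ 2 - q ^ 2 := Real.sq_sqrt (by nlinarith)
  have n1 : ∀ e : ℝ, e ^ 2 = 1 → ‖((p : ℂ) + ((e * τ : ℝ) : ℂ) * Complex.I)‖ = p' := by
    intro e he
    rw [Complex.norm_def, Complex.normSq_apply]
    simp only [Complex.add_re, Complex.ofReal_re, Complex.mul_re, Complex.ofReal_im,
      Complex.I_re, Complex.I_im, Complex.add_im, Complex.mul_im]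
    rw [← Real.sqrt_sq hp0'.le]
    congr 1
    have : (e * τ) ^ 2 = q' ^ 2 - q ^ 2 := by rw [mul_pow, he, one_mul, hτ2]
    nlinarith
  have n2 : ∀ e : ℝ, e ^ 2 = 1 → ‖((q : ℂ) + ((e * τ : ℝ) : ℂ) * Complex.I)‖ = q' := by
    intro e he
    rw [Complex.norm_def, Complex.normSq_apply]
    simp only [Complex.add_re, Complex.ofReal_re, Complex.mul_re, Complex.ofReal_im,
      Complex.I_re, Complex.I_im, Complex.add_im, Complex.mul_im]
    rw [← Real.sqrt_sq hq0']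
    congr 1
    have : (e * τ) ^ 2 = q' ^ 2 - q ^ 2 := by rw [mul_pow, he, one_mul, hτ2]
    nlinarith
  have hlt' : q' < p' := by rw [hp', hq']; linarith
  have key := hR ((p : ℂ) + ((-1 * τ : ℝ) : ℂ) * Complex.I,
    (q : ℂ) + ((-1 * τ : ℝ) : ℂ) * Complex.I)
    (((2 * τ : ℝ) : ℂ) * Complex.I, ((2 * τ : ℝ) : ℂ) * Complex.I) rfl
    (by rw [n1 (-1) (by norm_num), n2 (-1) (by norm_num)]; exact hlt')
    (by
      have e1 : ((p : ℂ) + ((-1 * τ : ℝ) : ℂ) * Complex.I,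
          (q : ℂ) + ((-1 * τ : ℝ) : ℂ) * Complex.I)
          + (((2 * τ : ℝ) : ℂ) * Complex.I, ((2 * τ : ℝ) : ℂ) * Complex.I)
          = ((p : ℂ) + ((1 * τ : ℝ) : ℂ) * Complex.I,
          (q : ℂ) + ((1 * τ : ℝ) : ℂ) * Complex.I) := by
        rw [Prod.mk_add_mk]
        congr 1 <;> (push_cast; ring)
      rw [e1, n1 1 (by norm_num), n2 1 (by norm_num)]
      exact hlt') (1 / 2) (by norm_num) (by norm_num)
  have e1 : ((p : ℂ) + ((-1 * τ : ℝ) : ℂ) * Complex.I,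
      (q : ℂ) + ((-1 * τ : ℝ) : ℂ) * Complex.I)
      + (((2 * τ : ℝ) : ℂ) * Complex.I, ((2 * τ : ℝ) : ℂ) * Complex.I)
      = ((p : ℂ) + ((1 * τ : ℝ) : ℂ) * Complex.I,
      (q : ℂ) + ((1 * τ : ℝ) : ℂ) * Complex.I) := by
    rw [Prod.mk_add_mk]
    congr 1 <;> (push_cast; ring)
  have e2 : ((p : ℂ) + ((-1 * τ : ℝ) : ℂ) * Complex.I,
      (q : ℂ) + ((-1 * τ : ℝ) : ℂ) * Complex.I)
      + (1 / 2 : ℝ) • (((2 * τ : ℝ) : ℂ) * Complex.I, ((2 * τ : ℝ) : ℂ) * Complex.I)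
      = ((p : ℂ), (q : ℂ)) := by
    rw [Prod.smul_mk, Prod.mk_add_mk]
    simp only [Complex.real_smul]
    congr 1 <;> (push_cast; ring)
  rw [e1, e2] at key
  unfold hf KK JJ at key
  simp only [n1 (-1) (by norm_num), n2 (-1) (by norm_num), n1 1 (by norm_num),
    n2 1 (by norm_num)] at key
  have m1 : ‖(p : ℂ)‖ = p := by rw [Complex.norm_real, Real.norm_of_nonneg hp0.le]
  have m2 : ‖(q : ℂ)‖ = q := by rw [Complex.norm_real, Real.norm_of_nonneg hq0]
  rw [m1, m2, hpq, hpq'] at key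
  have k1 : (p + q) / (p - q) = K := by
    have a1 : p + q = r := by rw [hp, hq]; ring
    have a2 : p - q = r⁻¹ := by rw [hp, hq]; ring
    rw [a1, a2, div_inv_eq_mul, ← sq, hrK]
  have k2 : (p' + q') / (p' - q') = K' := by
    have a1 : p' + q' = r' := by rw [hp', hq']; ring
    have a2 : p' - q' = r'⁻¹ := by rw [hp', hq']; ring
    rw [a1, a2, div_inv_eq_mul, ← sq, hrK']
  rw [k1, k2] at key
  linarith

theorem diag_cont (hR : RCp (hf h f)) {v : ℝ} (hv : 0 < v) :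
    ContinuousOn (fun s => h (max s v / min s v) + f (s * v)) (Ioi 0) :=
  (diag_conv hR hv).continuousOn isOpen_Ioi

/-- `f` is continuous -/
theorem f_cont (hR : RCp (hf h f)) : ContinuousOn f (Ioi 0) := by
  have hm := h_mono hR
  have hmono : Monotone (fun t => h (max t 1)) := by
    intro x y hxy
    exact hm (mem_Ici.2 (le_max_right _ _)) (mem_Ici.2 (le_max_right _ _))
      (max_le_max_right 1 hxy)
  have hcount := hmono.countable_not_continuousAt
  obtain ⟨K0, hK0, hKc⟩ : ∃ K0 ∈ Ioo (1 : ℝ) 2, ContinuousAt (fun t => h (max t 1)) K0 := by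
    by_contra hcon
    push Not at hcon
    have hsub : Ioo (1 : ℝ) 2 ⊆ {x | ¬ ContinuousAt (fun t => h (max t 1)) x} := hcon
    have hz := (hcount.mono hsub).measure_zero volume
    rw [Real.volume_Ioo] at hz
    norm_num at hz
  have hK1 : 1 < K0 := hK0.1
  have hK00 : 0 < K0 := by linarith
  intro z hz
  have hz0 : (0 : ℝ) < z := hz
  set v : ℝ := Real.sqrt (z / K0) with hv
  have hv0 : 0 < v := Real.sqrt_pos.2 (by positivity)
  have hv2 : v ^ 2 = z / K0 := Real.sq_sqrt (by positivity)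
  set s0 : ℝ := v * K0 with hs0
  have hs00 : 0 < s0 := by positivity
  have hvs : v < s0 := by rw [hs0]; nlinarith
  have hsv : s0 * v = z := by
    rw [hs0]
    have : v * K0 * v = v ^ 2 * K0 := by ring
    rw [this, hv2]
    field_simp
  have c1 : ContinuousAt (fun s => h (max s v / min s v) + f (s * v)) s0 :=
    (diag_cont hR hv0).continuousAt (Ioi_mem_nhds hs00)
  have c2 : ContinuousAt (fun s => h (max (s / v) 1)) s0 := by
    have e : s0 / v = K0 := by rw [hs0]; field_simp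
    have := ContinuousAt.comp (f := fun s : ℝ => s / v) (g := fun t => h (max t 1)) (x := s0)
      (by rw [e]; exact hKc) (by fun_prop)
    exact this
  have c3 : ContinuousAt (fun s => f (s * v)) s0 := by
    refine (c1.sub c2).congr ?_
    filter_upwards [Ioi_mem_nhds hvs] with s hs
    have hs' : v < s := hs
    show h (max s v / min s v) + f (s * v) - h (max (s / v) 1) = f (s * v)
    rw [max_eq_left hs'.le, min_eq_right hs'.le, max_eq_left (by
      rw [le_div_iff₀ hv0]; linarith)]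
    ring
  have e : z / v = s0 := by rw [← hsv]; field_simp
  have c4 : ContinuousAt (fun x => f (x / v * v)) z :=
    ContinuousAt.comp (f := fun x : ℝ => x / v) (g := fun s => f (s * v)) (x := z)
      (by rw [e]; exact c3) (by fun_prop)
  have e5 : (fun x => f (x / v * v)) = f := by
    ext x
    rw [div_mul_cancel₀ _ hv0.ne']
  rw [e5] at c4
  exact c4.continuousWithinAt

/-- `h` is continuous -/
theorem h_cont (hR : RCp (hf h f)) : ContinuousOn h (Ici 1) := by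
  have h1 : ContinuousOn (fun s => h (max s 1 / min s 1) + f (s * 1)) (Ici 1) :=
    (diag_cont hR one_pos).mono fun s hs => by
      have hs' : (1 : ℝ) ≤ s := hs
      exact mem_Ioi.2 (by linarith)
  have h2 : ContinuousOn f (Ici 1) := (f_cont hR).mono fun s hs => by
      have hs' : (1 : ℝ) ≤ s := hs
      exact mem_Ioi.2 (by linarith)
  refine (h1.sub h2).congr fun s hs => ?_
  have hs' : (1 : ℝ) ≤ s := hs
  simp only [Pi.sub_apply]
  rw [max_eq_left hs', min_eq_right hs', div_one, mul_one]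
  ring

end Pool.Agent.Y273.VS
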