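import Pool.Agent.Y273.VS.Bas

/-! # The volumetric part can be replaced by a multiple of the logarithm -/

set_option autoImplicit false

namespace Pool.Agent.Y273.VS

open MeasureTheory Set Filter Topology
open Pool.Agent.Y273.VI (RCp det_bac det_pos_iff det_line)
open Pool.Agent.TH937.TF (bac)

variable {h f : ℝ → ℝ}

theorem sg {α : ℝ → ℝ} {S : Set ℝ} (hα : ConvexOn ℝ S α) {v : ℝ} (hv : v ∈ interior S) :
    ∃ k, ∀ u ∈ S, α v + k * (u - v) ≤ α u := by
  refine ⟨derivWithin α (Ioi v) v, fun u hu => ?_⟩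
  rcases lt_trichotomy u v with h | h | h
  · have h1 := hα.slope_le_leftDeriv_of_mem_interior hu hv h
    have h2 := hα.leftDeriv_le_rightDeriv_of_mem_interior hv
    have h3 := h1.trans h2
    rw [slope_def_field, div_le_iff₀ (by linarith)] at h3
    linarith
  · subst h
    simp
  · have h1 := hα.rightDeriv_le_slope_of_mem_interior hv hu h
    rw [slope_def_field, le_div_iff₀ (by linarith)] at h1
    linarith

theorem chord_of_supp {u : ℝ → ℝ} (hc : ContinuousOn u (Icc 0 1))
    (hs : ∀ t0 ∈ Ioo (0 : ℝ) 1, ∃ m δ : ℝ, 0 < δ ∧ ∀ t ∈ Ioo (0 : ℝ) 1, |t - t0| < δ →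
      u t0 + m * (t - t0) ≤ u t) :
    ∀ t ∈ Icc (0 : ℝ) 1, u t ≤ (1 - t) * u 0 + t * u 1 := by
  by_contra hcon
  push Not at hcon
  obtain ⟨t1, ht1, hlt⟩ := hcon
  set g : ℝ → ℝ := fun t => u t - ((1 - t) * u 0 + t * u 1) with hg
  have hgc : ContinuousOn g (Icc 0 1) := hc.sub (by fun_prop)
  obtain ⟨tm, htm, hmax⟩ := isCompact_Icc.exists_isMaxOn ⟨t1, ht1⟩ hgc
  have hM : 0 < g tm := by
    have h1 : g t1 ≤ g tm := hmax ht1
    have h2 : 0 < g t1 := by simp only [hg]; linarith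
    linarith
  set S : Set ℝ := Icc 0 1 ∩ g ⁻¹' {g tm} with hS
  have hSc : IsCompact S := by
    refine isCompact_Icc.of_isClosed_subset ?_ inter_subset_left
    exact hgc.preimage_isClosed_of_isClosed isClosed_Icc isClosed_singleton
  have hSn : S.Nonempty := ⟨tm, htm, rfl⟩
  have ht0 := hSc.sInf_mem hSn
  set t0 : ℝ := sInf S with ht0d
  have hg0 : g t0 = g tm := ht0.2
  have hb0 : t0 ≠ 0 := by
    intro h0
    rw [h0] at hg0
    simp only [hg] at hg0 hM
    simp at hg0
    linarith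
  have hb1 : t0 ≠ 1 := by
    intro h0
    rw [h0] at hg0
    simp only [hg] at hg0 hM
    simp at hg0
    linarith
  have hI : t0 ∈ Ioo (0 : ℝ) 1 :=
    ⟨lt_of_le_of_ne ht0.1.1 (Ne.symm hb0), lt_of_le_of_ne ht0.1.2 hb1⟩
  obtain ⟨m, δ, hδ, hm⟩ := hs t0 hI
  set η : ℝ := min (δ / 2) (min (t0 / 2) ((1 - t0) / 2)) with hη
  have hη0 : 0 < η := by
    have h1 := hI.1
    have h2 := hI.2
    refine lt_min (by positivity) (lt_min (by positivity) (by linarith))
  have e1 : η ≤ δ / 2 := min_le_left _ _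
  have e2 : η ≤ t0 / 2 := (min_le_right _ _).trans (min_le_left _ _)
  have e3 : η ≤ (1 - t0) / 2 := (min_le_right _ _).trans (min_le_right _ _)
  have i1 : t0 + η ∈ Ioo (0 : ℝ) 1 := ⟨by linarith [hI.1], by linarith [hI.2]⟩
  have i2 : t0 - η ∈ Ioo (0 : ℝ) 1 := ⟨by linarith [hI.1], by linarith [hI.2]⟩
  have j1 := hm _ i1 (by rw [add_sub_cancel_left, abs_of_pos hη0]; linarith)
  have j2 := hm _ i2 (by
    rw [sub_sub_cancel_left, abs_neg, abs_of_pos hη0]; linarith)
  have k1 : g (t0 + η) ≤ g tm := hmax (Ioo_subset_Icc_self i1)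
  have k2 : g (t0 - η) ≤ g tm := hmax (Ioo_subset_Icc_self i2)
  have k3 : g (t0 - η) = g tm := by
    apply le_antisymm k2
    rw [← hg0] at k1 k2 ⊢
    simp only [hg] at k1 k2 ⊢
    nlinarith
  have k4 : t0 - η ∈ S := ⟨Ioo_subset_Icc_self i2, k3⟩
  have k5 := csInf_le hSc.bddBelow k4
  rw [← ht0d] at k5
  linarith

theorem touch {β : ℝ} (hf : ContinuousOn f (Ioi 0))
    (hn : ¬ ConvexOn ℝ (Ioi 0) (fun J => f J + β * Real.log J)) :
    ∃ J a b δ : ℝ, 0 < J ∧ 0 < δ ∧ f J = -β * Real.log J + a + b * J ∧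
      ∀ x, |x - J| < δ → f x ≤ -β * Real.log x + a + b * x := by
  set g : ℝ → ℝ := fun J => f J + β * Real.log J with hg
  have hgc : ContinuousOn g (Ioi 0) := hf.add (continuousOn_const.mul
    (Real.continuousOn_log.mono fun x hx => by
      have hx' : (0 : ℝ) < x := hx
      simp [hx'.ne']))
  have h1 : ∃ x y p q : ℝ, 0 < x ∧ 0 < y ∧ 0 ≤ p ∧ 0 ≤ q ∧ p + q = 1 ∧
      p * g x + q * g y < g (p * x + q * y) := by
    by_contra hcon
    push Not at hcon
    exact hn ⟨convex_Ioi 0, fun x hx y hy p q hp hq hpq => hcon x y p q hx hy hp hq hpq⟩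
  obtain ⟨x, y, p, q, hx, hy, hp, hq, hpq, hlt⟩ := h1
  have hxy : x ≠ y := by
    intro h0
    subst h0
    have e1 : p * x + q * x = x := by rw [← add_mul, hpq, one_mul]
    have e2 : p * g x + q * g x = g x := by rw [← add_mul, hpq, one_mul]
    rw [e1, e2] at hlt
    exact lt_irrefl _ hlt
  have hd : y - x ≠ 0 := sub_ne_zero.2 (Ne.symm hxy)
  have hpos : ∀ t ∈ Icc (0 : ℝ) 1, 0 < (1 - t) * x + t * y := by
    intro t ht
    rcases eq_or_lt_of_le ht.1 with h0 | h0
    · rw [← h0]; linarith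
    · have := mul_pos h0 hy
      have := mul_nonneg (sub_nonneg.2 ht.2) hx.le
      linarith
  set G : ℝ → ℝ := fun t => g ((1 - t) * x + t * y) - ((1 - t) * g x + t * g y) with hG
  have hGc : ContinuousOn G (Icc 0 1) := by
    have h2 : ContinuousOn (fun t : ℝ => g ((1 - t) * x + t * y)) (Icc 0 1) :=
      hgc.comp (by fun_prop) hpos
    exact h2.sub (by fun_prop)
  have hq1 : q ∈ Icc (0 : ℝ) 1 := ⟨hq, by linarith⟩
  obtain ⟨t, ht, hmax⟩ := isCompact_Icc.exists_isMaxOn ⟨q, hq1⟩ hGc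
  have hM : 0 < G t := by
    have h1 : G q ≤ G t := hmax hq1
    have h2 : 0 < G q := by
      simp only [hG]
      have : 1 - q = p := by linarith
      rw [this]
      linarith
    linarith
  have hb0 : t ≠ 0 := by
    intro h0
    rw [h0] at hM
    simp [hG] at hM
  have hb1 : t ≠ 1 := by
    intro h0
    rw [h0] at hM
    simp [hG] at hM
  have ht0 : 0 < t := lt_of_le_of_ne ht.1 (Ne.symm hb0)
  have ht1 : t < 1 := lt_of_le_of_ne ht.2 hb1
  set J : ℝ := (1 - t) * x + t * y with hJ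
  set b : ℝ := (g y - g x) / (y - x) with hb
  set a : ℝ := g x - b * x + G t with ha
  have hbd : b * (y - x) = g y - g x := by rw [hb]; field_simp
  refine ⟨J, a, b, |y - x| * min t (1 - t), hpos t ht, ?_, ?_, ?_⟩
  · exact mul_pos (abs_pos.2 hd) (lt_min ht0 (by linarith))
  · have e1 : G t = g J - ((1 - t) * g x + t * g y) := rfl
    have e2 : g J = f J + β * Real.log J := rfl
    rw [ha, e1, e2, hJ]
    linear_combination (-t) * hbd
  · intro z hz
    set τ : ℝ := (z - x) / (y - x) with hτ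
    have hzt : z = (1 - τ) * x + τ * y := by
      have : τ * (y - x) = z - x := by rw [hτ]; field_simp
      linarith
    have hdt : z - J = (τ - t) * (y - x) := by rw [hzt, hJ]; ring
    rw [hdt, abs_mul, mul_comm] at hz
    have hz' := lt_of_mul_lt_mul_left hz (abs_nonneg _)
    rw [abs_lt] at hz'
    have m1 := min_le_left t (1 - t)
    have m2 := min_le_right t (1 - t)
    have hτ1 : τ ∈ Icc (0 : ℝ) 1 := ⟨by linarith [hz'.1], by linarith [hz'.2]⟩
    have e1 : G τ ≤ G t := hmax hτ1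
    have e2 : G τ = g z - ((1 - τ) * g x + τ * g y) := by
      simp only [hG]
      rw [← hzt]
    have e3 : g z = f z + β * Real.log z := rfl
    rw [e2, e3] at e1
    have e4 : a + b * z = (1 - τ) * g x + τ * g y + G t := by
      rw [ha]
      conv_lhs => rw [hzt]
      linear_combination τ * hbd
    linarith

theorem KK_smul {r : ℝ} (hr : 0 < r) (F : ℂ × ℂ) : KK (r • F) = KK F := by
  unfold KK
  simp only [Prod.smul_fst, Prod.smul_snd, norm_smul, Real.norm_of_nonneg hr.le]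
  rw [← mul_add, ← mul_sub, mul_div_mul_left _ _ hr.ne']

theorem JJ_smul (r : ℝ) (F : ℂ × ℂ) : JJ (r • F) = r ^ 2 * JJ F := by
  unfold JJ
  simp only [Prod.smul_fst, Prod.smul_snd, norm_smul, Real.norm_eq_abs, mul_pow, sq_abs]
  ring

theorem JJ_pos {F : ℂ × ℂ} : 0 < JJ F ↔ ‖F.2‖ < ‖F.1‖ := by
  unfold JJ
  rw [sub_pos, sq_lt_sq₀ (norm_nonneg _) (norm_nonneg _)]

theorem JJ_line {F H : ℂ × ℂ} (hH : ‖H.1‖ = ‖H.2‖) (t : ℝ) :
    JJ (F + t • H) = (1 - t) * JJ F + t * JJ (F + H) := by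
  have := det_line F H hH t
  simp only [det_bac] at this
  unfold JJ
  exact this

theorem KK_ge {F : ℂ × ℂ} (hF : ‖F.2‖ < ‖F.1‖) : 1 ≤ KK F := by
  unfold KK
  rw [le_div_iff₀ (by linarith)]
  linarith [norm_nonneg F.2]

theorem line_lt {F H : ℂ × ℂ} (hH : ‖H.1‖ = ‖H.2‖) (h1 : ‖F.2‖ < ‖F.1‖)
    (h2 : ‖(F + H).2‖ < ‖(F + H).1‖) {t : ℝ} (h0 : 0 ≤ t) (ht : t ≤ 1) :
    ‖(F + t • H).2‖ < ‖(F + t • H).1‖ := by
  rw [← JJ_pos, JJ_line hH]
  have a1 := JJ_pos.2 h1
  have a2 := JJ_pos.2 h2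
  rcases eq_or_lt_of_le h0 with h | h
  · rw [← h]; linarith
  · have := mul_pos h a2
    have := mul_nonneg (sub_nonneg.2 ht) a1.le
    linarith

theorem transfer (hR : RCp (hf h f)) {β : ℝ}
    (hn : ¬ ConvexOn ℝ (Ioi 0) (fun J => f J + β * Real.log J)) :
    RCp (hf h (fun J => -β * Real.log J)) := by
  obtain ⟨Js, a, b, δ, hJs, hδ, heq, hle⟩ := touch (f_cont hR) hn
  intro F H hH h1 h2 t ht0 ht1
  have hlt : ∀ t ∈ Icc (0 : ℝ) 1, ‖(F + t • H).2‖ < ‖(F + t • H).1‖ := fun t ht =>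
    line_lt hH h1 h2 ht.1 ht.2
  have hJp : ∀ t ∈ Icc (0 : ℝ) 1, 0 < JJ (F + t • H) := fun t ht => JJ_pos.2 (hlt t ht)
  have hJc : Continuous (fun t : ℝ => JJ (F + t • H)) := by
    simp only [JJ_line hH]
    fun_prop
  have hKc : ContinuousOn (fun t : ℝ => KK (F + t • H)) (Icc 0 1) := by
    unfold KK
    refine ContinuousOn.div (by fun_prop) (by fun_prop) fun t ht => ?_
    have := hlt t ht
    linarith
  have hu : ContinuousOn (fun t : ℝ => hf h (fun J => -β * Real.log J) (F + t • H))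
      (Icc 0 1) := by
    unfold hf
    refine ContinuousOn.add ?_ ?_
    · exact (h_cont hR).comp hKc fun t ht => KK_ge (hlt t ht)
    · exact continuousOn_const.mul (hJc.continuousOn.log fun t ht => (hJp t ht).ne')
  have key := chord_of_supp hu (by
    intro t0 ht0
    have ht0' : t0 ∈ Icc (0 : ℝ) 1 := Ioo_subset_Icc_self ht0
    set r : ℝ := Real.sqrt (Js / JJ (F + t0 • H)) with hr
    have hr0 : 0 < r := Real.sqrt_pos.2 (div_pos hJs (hJp t0 ht0'))
    have hr2 : r ^ 2 * JJ (F + t0 • H) = Js := by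
      rw [hr, Real.sq_sqrt (div_pos hJs (hJp t0 ht0')).le]
      have := (hJp t0 ht0').ne'
      field_simp
    have hφ : ConvexOn ℝ (Ioo (0 : ℝ) 1) (fun t : ℝ => hf h f (r • (F + t • H))) := by
      refine ⟨convex_Ioo _ _, fun x hx y hy p q hp hq hpq => ?_⟩
      have hsl : ∀ G : ℂ × ℂ, ‖G.2‖ < ‖G.1‖ → ‖(r • G).2‖ < ‖(r • G).1‖ := by
        intro G hG
        simp only [Prod.smul_fst, Prod.smul_snd, norm_smul]
        exact mul_lt_mul_of_pos_left hG (norm_pos_iff.2 hr0.ne')
      have hp' : p = 1 - q := by linarith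
      have e1 : r • (F + x • H) + (r * (y - x)) • H = r • (F + y • H) := by
        module
      have e2 : r • (F + x • H) + q • ((r * (y - x)) • H) = r • (F + (p • x + q • y) • H) := by
        rw [hp']
        simp only [smul_eq_mul]
        module
      have := hR (r • (F + x • H)) ((r * (y - x)) • H)
        (by simp only [Prod.smul_fst, Prod.smul_snd, norm_smul, hH])
        (hsl _ (hlt x (Ioo_subset_Icc_self hx)))
        (by rw [e1]; exact hsl _ (hlt y (Ioo_subset_Icc_self hy))) q hq (by linarith)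
      rw [e1, e2] at this
      simp only [smul_eq_mul] at this ⊢
      rw [hp'] at this ⊢
      exact this
    obtain ⟨m, hm⟩ := sg hφ (by rwa [interior_Ioo])
    have hJt : Tendsto (fun t : ℝ => r ^ 2 * JJ (F + t • H)) (𝓝 t0) (𝓝 Js) := by
      have : Continuous (fun t : ℝ => r ^ 2 * JJ (F + t • H)) := by fun_prop
      have h2 := this.tendsto t0
      rwa [hr2] at h2
    obtain ⟨η, hη, hη2⟩ := Metric.eventually_nhds_iff.1
      (Metric.tendsto_nhds.1 hJt δ hδ)
    refine ⟨m - b * r ^ 2 * (JJ (F + H) - JJ F), η, hη, fun t ht htt => ?_⟩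
    have ht' : t ∈ Icc (0 : ℝ) 1 := Ioo_subset_Icc_self ht
    have d1 := hη2 (y := t) (by rw [Real.dist_eq]; exact htt)
    rw [Real.dist_eq] at d1
    have d2 := hle _ d1
    have d3 := hm t ht
    unfold hf at d3 ⊢
    simp only [KK_smul hr0, JJ_smul] at d3
    rw [hr2, heq] at d3
    have l1 : Real.log (r ^ 2 * JJ (F + t • H)) = Real.log (r ^ 2) + Real.log (JJ (F + t • H)) :=
      Real.log_mul (by positivity) (hJp t ht').ne'
    have l2 : Real.log Js = Real.log (r ^ 2) + Real.log (JJ (F + t0 • H)) := by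
      rw [← hr2]
      exact Real.log_mul (by positivity) (hJp t0 ht0').ne'
    rw [l1] at d2
    rw [l2] at d3
    have l3 : b * (r ^ 2 * JJ (F + t • H)) = b * Js
        + b * r ^ 2 * (JJ (F + H) - JJ F) * (t - t0) := by
      rw [← hr2, JJ_line hH, JJ_line hH]
      ring
    rw [l3] at d2
    linarith)
  have := key t ⟨ht0, ht1⟩
  simpa only [zero_smul, add_zero, one_smul] using this

theorem lin_lim {X L β0 : ℝ} {S : Set ℝ} (hS : ∀ ε > 0, ∃ β ∈ S, |β - β0| < ε)
    (h : ∀ β ∈ S, X + β * L ≤ 0) : X + β0 * L ≤ 0 := by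
  by_contra hn
  push Not at hn
  have hL : 0 < |L| + 1 := by positivity
  obtain ⟨β, hβ, h1⟩ := hS ((X + β0 * L) / (|L| + 1)) (by positivity)
  have h2 := h β hβ
  rw [lt_div_iff₀ hL] at h1
  have h3 : (β0 - β) * L ≤ |β - β0| * |L| := by
    rw [← abs_mul]
    have := neg_abs_le ((β - β0) * L)
    linarith
  have h4 := abs_nonneg (β - β0)
  nlinarith

theorem two_log : 0 < 2 * Real.log 2 - Real.log 3 := by
  have h1 : Real.log 3 < Real.log 4 := Real.log_lt_log (by norm_num) (by norm_num)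
  have h2 : Real.log 4 = 2 * Real.log 2 := by
    rw [show (4 : ℝ) = 2 ^ 2 by norm_num, Real.log_pow]
    push_cast
    ring
  linarith

/-- the volumetric part is a convex function minus a multiple of the logarithm for which the
function stays rank-one convex -/
theorem exists_beta (hR : RCp (hf h f)) : ∃ β : ℝ,
    ConvexOn ℝ (Ioi 0) (fun J => f J + β * Real.log J) ∧
    RCp (hf h (fun J => -β * Real.log J)) := by
  set B : Set ℝ := {β | ConvexOn ℝ (Ioi 0) (fun J => f J + β * Real.log J)} with hB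
  have hne : B.Nonempty := by
    by_contra hcon
    rw [Set.not_nonempty_iff_eq_empty] at hcon
    have hall : ∀ β, RCp (hf h (fun J => -β * Real.log J)) := by
      intro β
      apply transfer hR
      intro hc
      have : β ∈ B := hc
      rw [hcon] at this
      exact this
    set c : ℝ := (|h 1 + h 3 - 2 * h 2| + 1) / (2 * Real.log 2 - Real.log 3) with hc
    have h1 := (diag_conv (hall (-c)) one_pos).2 (show (1 : ℝ) ∈ Ioi 0 by simp)
      (show (3 : ℝ) ∈ Ioi 0 by simp) (show (0 : ℝ) ≤ 1 / 2 by norm_num)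
      (show (0 : ℝ) ≤ 1 / 2 by norm_num) (by norm_num)
    simp only [smul_eq_mul] at h1
    norm_num at h1
    have h2 : c * (2 * Real.log 2 - Real.log 3) = |h 1 + h 3 - 2 * h 2| + 1 := by
      rw [hc]
      have := two_log.ne'
      field_simp
    have h3 := le_abs_self (h 1 + h 3 - 2 * h 2)
    nlinarith
  have hbd : BddAbove B := by
    refine ⟨(f 1 + f 3 - 2 * f 2) / (2 * Real.log 2 - Real.log 3), fun β hβ => ?_⟩
    have hβ' : ConvexOn ℝ (Ioi 0) (fun J => f J + β * Real.log J) := hβ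
    have h1 := hβ'.2 (show (1 : ℝ) ∈ Ioi 0 by simp)
      (show (3 : ℝ) ∈ Ioi 0 by simp) (show (0 : ℝ) ≤ 1 / 2 by norm_num)
      (show (0 : ℝ) ≤ 1 / 2 by norm_num) (by norm_num)
    simp only [smul_eq_mul] at h1
    norm_num at h1
    rw [le_div_iff₀ two_log]
    nlinarith
  refine ⟨sSup B, ⟨convex_Ioi 0, fun x hx y hy p q hp hq hpq => ?_⟩, ?_⟩
  · have h1 := lin_lim (X := f (p • x + q • y) - (p * f x + q * f y))
      (L := Real.log (p • x + q • y) - (p * Real.log x + q * Real.log y)) (β0 := sSup B) (S := B)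
      (by
        intro ε hε
        obtain ⟨β, hβ, h2⟩ := exists_lt_of_lt_csSup hne (by linarith : sSup B - ε < sSup B)
        have h3 := le_csSup hbd hβ
        exact ⟨β, hβ, by rw [abs_lt]; constructor <;> linarith⟩)
      (by
        intro β hβ
        have hβ' : ConvexOn ℝ (Ioi 0) (fun J => f J + β * Real.log J) := hβ
        have h2 := hβ'.2 hx hy hp hq hpq
        simp only [smul_eq_mul] at h2 ⊢
        linarith)
    simp only [smul_eq_mul] at h1 ⊢
    linarith
  · intro F H hH h1 h2 t ht0 ht1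
    have h3 := lin_lim (X := h (KK (F + t • H)) - ((1 - t) * h (KK F) + t * h (KK (F + H))))
      (L := (1 - t) * Real.log (JJ F) + t * Real.log (JJ (F + H)) - Real.log (JJ (F + t • H)))
      (β0 := sSup B) (S := Ioi (sSup B))
      (by
        intro ε hε
        refine ⟨sSup B + ε / 2, mem_Ioi.2 (by linarith), ?_⟩
        rw [add_sub_cancel_left, abs_of_pos (by positivity)]
        linarith)
      (by
        intro β hβ
        have hβ' : sSup B < β := hβ
        have h4 := transfer hR (β := β) (fun hc => by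
          have : β ≤ sSup B := le_csSup hbd hc
          linarith) F H hH h1 h2 t ht0 ht1
        unfold hf at h4
        linarith)
    unfold hf
    linarith

end Pool.Agent.Y273.VS
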