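import Pool.Agent.Y273.VI.Fin
import Pool.Agent.Y273.VS.Sup

/-! # The function `s / v + 2 log v` and the last step -/

set_option autoImplicit false

namespace Pool.Agent.Y273.VS

open MeasureTheory Set Filter Topology
open Pool.Agent.Y273.VI
open Pool.Agent.W360.MQ (cab)
open Pool.Agent.TH937.ZC (QL gf)
open Pool.Agent.W523.MQ.OM (T T_cont)

variable {a b : ℝ → ℝ}

theorem main_d (hcv : ∀ s, ConvexOn ℝ (Ioc 0 s) (fun v => a v * s + b v))
    (hab : ∀ ρ A B, 0 < ρ → HasDerivAt a A ρ → HasDerivAt b B ρ → |B| ≤ a ρ - ρ * A)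
    {F₀ : Matrix (Fin 2) (Fin 2) ℝ} {Ω : Set (Fin 2 → ℝ)}
    {ϑ : (Fin 2 → ℝ) → (Fin 2 → ℝ)} (h : Tm Ω ϑ) (hF : ‖(cab F₀).2‖ < ‖(cab F₀).1‖)
    (hpos : ∀ᵐ x ∂(volume.restrict Ω), ‖(T F₀ (fderiv ℝ ϑ x)).2‖ < ‖(T F₀ (fderiv ℝ ϑ x)).1‖)
    (hfin : ∫⁻ x in Ω, ENNReal.ofReal (gf a b (T F₀ (fderiv ℝ ϑ x))) ≠ ⊤) :
    IntegrableOn (fun x => gf a b (T F₀ (fderiv ℝ ϑ x))) Ω ∧
      gf a b (cab F₀) * (volume Ω).toReal ≤ ∫ x in Ω, gf a b (T F₀ (fderiv ℝ ϑ x)) := by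
  have hm := meas_W hcv F₀ hpos
  set v0 : ℝ := ‖(cab F₀).1‖ - ‖(cab F₀).2‖ with hv0
  set s0 : ℝ := ‖(cab F₀).1‖ + ‖(cab F₀).2‖ with hs0
  have hv0p : 0 < v0 := by rw [hv0]; linarith
  have hvs : v0 ≤ s0 := by rw [hv0, hs0]; linarith [norm_nonneg (cab F₀).2]
  have hdat : ∀ x, 0 < x → x < v0 → ∃ ρ A B, x < ρ ∧ ρ < v0 ∧ Dat a b ρ A B := by
    intro x hx hxv
    obtain ⟨ρ, hρ, d1, d2⟩ := dense_diffp hcv hx hxv
    have hρ0 : 0 < ρ := hx.trans hρ.1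
    exact ⟨ρ, deriv a ρ, deriv b ρ, hρ.1, hρ.2, hcv, hρ0, d1.hasDerivAt, d2.hasDerivAt,
      hab _ _ _ hρ0 d1.hasDerivAt d2.hasDerivAt⟩
  have key : ∀ ρ A B, ρ < v0 → Dat a b ρ A B →
      IntegrableOn (fun x => gf a b (T F₀ (fderiv ℝ ϑ x))) Ω ∧
      ((a ρ + A * (v0 - ρ)) * s0 + (b ρ + B * (v0 - ρ))) * (volume Ω).toReal
        ≤ ∫ x in Ω, gf a b (T F₀ (fderiv ℝ ϑ x)) := fun ρ A B h1 D => D.main h h1 hpos hfin hm
  obtain ⟨ρ1, A1, B1, _, r2, D1⟩ := hdat (v0 / 2) (by positivity) (by linarith)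
  refine ⟨(key ρ1 A1 B1 r2 D1).1, ?_⟩
  set I : ℝ := ∫ x in Ω, gf a b (T F₀ (fderiv ℝ ϑ x)) with hI
  set f : ℝ → ℝ := fun v => a v * s0 + b v with hf
  have hfc : ContinuousAt f v0 := by
    obtain ⟨ha, hb⟩ := cont_ap hcv
    exact ((ha.continuousAt (Ioi_mem_nhds hv0p)).mul continuousAt_const).add
      (hb.continuousAt (Ioi_mem_nhds hv0p))
  set L : ℝ → ℝ := fun ρ => f ρ + (v0 - ρ) * ((f ρ - f (v0 / 2)) / (ρ - v0 / 2)) with hL
  have hLc : ContinuousAt L v0 := by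
    have h1 : ContinuousAt (fun ρ : ℝ => ρ - v0 / 2) v0 := by fun_prop
    have h2 : ContinuousAt (fun ρ : ℝ => v0 - ρ) v0 := by fun_prop
    exact hfc.add (h2.mul ((hfc.sub continuousAt_const).div h1 (by linarith)))
  have hL0 : L v0 = f v0 := by simp [hL]
  have hLle : ∀ ρ A B, v0 / 2 < ρ → ρ < v0 → Dat a b ρ A B →
      L ρ ≤ (a ρ + A * (v0 - ρ)) * s0 + (b ρ + B * (v0 - ρ)) := by
    intro ρ A B h1 h2 D
    have hd : HasDerivAt f (A * s0 + B) ρ := (D.dA.mul_const s0).add D.dB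
    have h3 := (hcv s0).slope_le_of_hasDerivAt (x := v0 / 2) (y := ρ)
      ⟨by positivity, by linarith⟩ ⟨D.ρ0, by linarith⟩ h1 hd
    rw [slope_def_field] at h3
    have h4 := mul_le_mul_of_nonneg_left h3 (by linarith : 0 ≤ v0 - ρ)
    simp only [hL]
    refine (add_le_add le_rfl h4).trans (le_of_eq ?_)
    simp only [hf]
    ring
  have hvol : 0 ≤ (volume Ω).toReal := ENNReal.toReal_nonneg
  have hgoal : f v0 * (volume Ω).toReal ≤ I := by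
    refine le_of_forall_pos_le_add fun ε hε => ?_
    set η : ℝ := ε / ((volume Ω).toReal + 1) with hη
    have hη0 : 0 < η := by positivity
    have h1 : ∀ᶠ ρ in 𝓝 v0, L v0 - η < L ρ := hLc.eventually (lt_mem_nhds (by linarith))
    obtain ⟨δ, hδ, h2⟩ := Metric.eventually_nhds_iff.1 h1
    obtain ⟨ρ, A, B, h3, h4, D⟩ := hdat (max (v0 / 2) (v0 - δ))
      (lt_of_lt_of_le (by positivity) (le_max_left _ _)) (max_lt (by linarith) (by linarith))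
    have h5 := h2 (y := ρ) (by
      rw [Real.dist_eq, abs_of_nonpos (by linarith)]
      have := (le_max_right (v0 / 2) (v0 - δ)).trans_lt h3
      linarith)
    have h6 := hLle ρ A B ((le_max_left _ _).trans_lt h3) h4 D
    have h7 := (key ρ A B h4 D).2
    have h8 := mul_le_mul_of_nonneg_right (h5.le.trans h6) hvol
    rw [hL0] at h8
    have h9 : η * (volume Ω).toReal ≤ ε := by
      rw [hη, div_mul_eq_mul_div, div_le_iff₀ (by positivity)]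
      nlinarith
    linarith
  exact hgoal

/-- the function `c (s / v + 2 log v)` -/
noncomputable def wm (c : ℝ) (F : ℂ × ℂ) : ℝ := gf (fun v => c / v) (fun v => 2 * c * Real.log v) F

theorem wm_eq (c : ℝ) (F : ℂ × ℂ) : wm c F = c * KK F + 2 * c * Real.log (‖F.1‖ - ‖F.2‖) := by
  unfold wm gf KK
  ring

theorem wm_cv {c : ℝ} (hc : 0 ≤ c) (s : ℝ) :
    ConvexOn ℝ (Ioc 0 s) (fun v => c / v * s + 2 * c * Real.log v) := by
  refine convexOn_of_hasDerivWithinAt2_nonneg (convex_Ioc _ _)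
    (f' := fun v => -(c * s) / v ^ 2 + 2 * c / v)
    (f'' := fun v => 2 * c * (s - v) / v ^ 3) ?_ ?_ ?_ ?_
  · refine ContinuousOn.add ?_ ?_
    · exact (continuousOn_const.div continuousOn_id fun v hv => hv.1.ne').mul continuousOn_const
    · exact continuousOn_const.mul (continuousOn_id.log fun v hv => hv.1.ne')
  · intro v hv
    rw [interior_Ioc] at hv ⊢
    have hv0 : v ≠ 0 := hv.1.ne'
    have h1 : HasDerivAt (fun v : ℝ => c / v * s + 2 * c * Real.log v)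
        (-(c * s) / v ^ 2 + 2 * c / v) v := by
      have h2 := (((hasDerivAt_inv hv0).const_mul c).mul_const s).add
        ((Real.hasDerivAt_log hv0).const_mul (2 * c))
      refine (h2.congr_deriv ?_).congr_of_eventuallyEq
        (Filter.Eventually.of_forall fun r => ?_)
      · field_simp
      · simp only [Pi.add_apply]
        ring
    exact h1.hasDerivWithinAt
  · intro v hv
    rw [interior_Ioc] at hv ⊢
    have hv0 : v ≠ 0 := hv.1.ne'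
    have h1 : HasDerivAt (fun v : ℝ => -(c * s) / v ^ 2 + 2 * c / v)
        (2 * c * (s - v) / v ^ 3) v := by
      have h2 := ((((hasDerivAt_inv hv0).pow 2).const_mul (-(c * s)))).add
        ((hasDerivAt_inv hv0).const_mul (2 * c))
      refine (h2.congr_deriv ?_).congr_of_eventuallyEq
        (Filter.Eventually.of_forall fun r => ?_)
      · push_cast
        field_simp
        ring
      · simp only [Pi.add_apply, Pi.pow_apply]
        rw [inv_pow]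
        ring
    exact h1.hasDerivWithinAt
  · intro v hv
    rw [interior_Ioc] at hv
    have h1 : 0 ≤ s - v := by linarith [hv.2]
    have h2 : 0 < v := hv.1
    positivity

theorem wm_ab {c : ℝ} (hc : 0 ≤ c) (ρ A B : ℝ) (hρ : 0 < ρ)
    (hA : HasDerivAt (fun v : ℝ => c / v) A ρ)
    (hB : HasDerivAt (fun v : ℝ => 2 * c * Real.log v) B ρ) : |B| ≤ c / ρ - ρ * A := by
  have h1 : HasDerivAt (fun v : ℝ => c / v) (-c / ρ ^ 2) ρ := by
    refine (((hasDerivAt_inv hρ.ne').const_mul c).congr_deriv (by field_simp)).congr_of_eventuallyEq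
        (Filter.Eventually.of_forall fun r => ?_)
    simp only
    ring
  have h2 := (Real.hasDerivAt_log hρ.ne').const_mul (2 * c)
  rw [hA.unique h1, hB.unique h2, abs_of_nonneg (by positivity)]
  apply le_of_eq
  field_simp
  ring

/-- the affine functions of `(|F₁|, |F₂|, det)` -/
noncomputable def mi (A B C D : ℝ) (F : ℂ × ℂ) : ℝ := A * ‖F.1‖ + B * ‖F.2‖ + C * (‖F.1‖ ^ 2 - ‖F.2‖ ^ 2) + D

theorem mi_cont (A B C D : ℝ) : Continuous (mi A B C D) := by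
  unfold mi
  fun_prop

theorem mi_ql {A B : ℝ} (hA : 0 ≤ A) (hB : 0 ≤ B) (C D : ℝ) (F0 : ℂ × ℂ) :
    QL (mi A B C D) F0 := by
  have h1 : ConvexOn ℝ univ (fun F : ℂ × ℂ => A * ‖F.1‖ + B * ‖F.2‖) := by
    refine ⟨convex_univ, fun x _ y _ p q hp hq _ => ?_⟩
    simp only [smul_eq_mul, Prod.fst_add, Prod.snd_add, Prod.smul_fst, Prod.smul_snd]
    have e1 : ‖p • x.1 + q • y.1‖ ≤ p * ‖x.1‖ + q * ‖y.1‖ := by
      refine (norm_add_le _ _).trans ?_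
      rw [norm_smul, norm_smul, Real.norm_of_nonneg hp, Real.norm_of_nonneg hq]
    have e2 : ‖p • x.2 + q • y.2‖ ≤ p * ‖x.2‖ + q * ‖y.2‖ := by
      refine (norm_add_le _ _).trans ?_
      rw [norm_smul, norm_smul, Real.norm_of_nonneg hp, Real.norm_of_nonneg hq]
    have := mul_le_mul_of_nonneg_left e1 hA
    have := mul_le_mul_of_nonneg_left e2 hB
    linarith
  have q1 := Pool.Agent.TH937.ZC.QL_conv (by fun_prop) h1 F0
  have q2 := Pool.Agent.TH937.ZC.QL_det C F0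
  have q3 := Pool.Agent.TH937.ZC.QL_const D F0
  exact Pool.Agent.TH937.ZC.QL_add (by fun_prop) (by fun_prop)
    (Pool.Agent.TH937.ZC.QL_add (by fun_prop) (by fun_prop) q1 q2) q3

theorem meas_on {w : ℂ × ℂ → ℝ} (hc : ContinuousOn w {F : ℂ × ℂ | ‖F.2‖ < ‖F.1‖})
    (F₀ : Matrix (Fin 2) (Fin 2) ℝ) {Ω : Set (Fin 2 → ℝ)} {ϑ : (Fin 2 → ℝ) → (Fin 2 → ℝ)}
    (hpos : ∀ᵐ x ∂(volume.restrict Ω), ‖(T F₀ (fderiv ℝ ϑ x)).2‖ < ‖(T F₀ (fderiv ℝ ϑ x)).1‖) :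
    AEStronglyMeasurable (fun x => w (T F₀ (fderiv ℝ ϑ x))) (volume.restrict Ω) := by
  have hP : IsOpen {F : ℂ × ℂ | ‖F.2‖ < ‖F.1‖} := isOpen_lt (by fun_prop) (by fun_prop)
  classical
  have hm := ContinuousOn.measurable_piecewise hc
    (continuousOn_const (c := (0 : ℝ)) (s := {F : ℂ × ℂ | ‖F.2‖ < ‖F.1‖}ᶜ)) hP.measurableSet
  have hm2 := (hm.comp (T_meas F₀ ϑ)).aestronglyMeasurable (μ := volume.restrict Ω)
  refine hm2.congr ?_
  filter_upwards [hpos] with x hx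
  have hx' : T F₀ (fderiv ℝ ϑ x) ∈ {F : ℂ × ℂ | ‖F.2‖ < ‖F.1‖} := hx
  simp only [Function.comp]
  rw [Set.piecewise_eq_of_mem _ _ _ hx']

theorem last_step {w : ℂ × ℂ → ℝ} (hc : ContinuousOn w {F : ℂ × ℂ | ‖F.2‖ < ‖F.1‖})
    {F₀ : Matrix (Fin 2) (Fin 2) ℝ} {Ω : Set (Fin 2 → ℝ)}
    {ϑ : (Fin 2 → ℝ) → (Fin 2 → ℝ)} (h : Tm Ω ϑ) (hF : ‖(cab F₀).2‖ < ‖(cab F₀).1‖)
    (hpos : ∀ᵐ x ∂(volume.restrict Ω), ‖(T F₀ (fderiv ℝ ϑ x)).2‖ < ‖(T F₀ (fderiv ℝ ϑ x)).1‖)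
    (hfin : ∫⁻ x in Ω, ENNReal.ofReal (w (T F₀ (fderiv ℝ ϑ x))) ≠ ⊤)
    {c A B C D : ℝ} (hc0 : 0 ≤ c) (hA : 0 ≤ A) (hB : 0 ≤ B)
    (hlow : ∀ F : ℂ × ℂ, ‖F.2‖ < ‖F.1‖ → wm c F + mi A B C D F ≤ w F)
    (heq : w (cab F₀) = wm c (cab F₀) + mi A B C D (cab F₀)) :
    IntegrableOn (fun x => w (T F₀ (fderiv ℝ ϑ x))) Ω ∧
      w (cab F₀) * (volume Ω).toReal ≤ ∫ x in Ω, w (T F₀ (fderiv ℝ ϑ x)) := by
  set μ := volume.restrict Ω with hμ
  have hm := meas_on hc F₀ hpos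
  have i2 : Integrable (fun x => mi A B C D (T F₀ (fderiv ℝ ϑ x))) μ :=
    pt_int (mi_cont A B C D) F₀ h
  have j2 : mi A B C D (cab F₀) * (volume Ω).toReal ≤ ∫ x, mi A B C D (T F₀ (fderiv ℝ ϑ x)) ∂μ :=
    pt_ql (mi_cont A B C D) F₀ (mi_ql hA hB C D _) h
  obtain ⟨C0, hC0⟩ := pt_bd (mi_cont A B C D) F₀ h
  have hC00 : 0 ≤ C0 := (norm_nonneg _).trans (hC0 0)
  have hfin2 : ∫⁻ x in Ω, ENNReal.ofReal (wm c (T F₀ (fderiv ℝ ϑ x))) ≠ ⊤ := by
    have h1 : ∫⁻ x in Ω, ENNReal.ofReal (wm c (T F₀ (fderiv ℝ ϑ x)))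
        ≤ ∫⁻ x in Ω, (ENNReal.ofReal (w (T F₀ (fderiv ℝ ϑ x))) + ENNReal.ofReal C0) := by
      apply lintegral_mono_ae
      filter_upwards [hpos] with x hx
      have h2 := hlow _ hx
      have h3 := hC0 x
      rw [Real.norm_eq_abs, abs_le] at h3
      refine (ENNReal.ofReal_le_ofReal (by linarith : wm c (T F₀ (fderiv ℝ ϑ x))
        ≤ w (T F₀ (fderiv ℝ ϑ x)) + C0)).trans ENNReal.ofReal_add_le
    refine ne_top_of_le_ne_top ?_ h1
    rw [lintegral_add_right _ measurable_const, lintegral_const]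
    refine ENNReal.add_ne_top.2 ⟨hfin, ENNReal.mul_ne_top ENNReal.ofReal_ne_top ?_⟩
    rw [Measure.restrict_apply_univ]
    exact h.fin.ne
  obtain ⟨i1, j1⟩ := main_d (wm_cv hc0) (wm_ab hc0) h hF hpos hfin2
  have i1' : Integrable (fun x => wm c (T F₀ (fderiv ℝ ϑ x))) μ := i1
  have j1' : wm c (cab F₀) * (volume Ω).toReal ≤ ∫ x, wm c (T F₀ (fderiv ℝ ϑ x)) ∂μ := j1
  have i3 := i1'.add i2
  have hWp : Integrable (fun x => max (w (T F₀ (fderiv ℝ ϑ x))) 0) μ := by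
    refine ⟨hm.sup aestronglyMeasurable_const, ?_⟩
    have hp0 : 0 ≤ᵐ[μ] fun x => max (w (T F₀ (fderiv ℝ ϑ x))) 0 :=
      Eventually.of_forall fun x => le_max_right _ _
    rw [hasFiniteIntegral_iff_ofReal hp0]
    have e : ∀ x, ENNReal.ofReal (max (w (T F₀ (fderiv ℝ ϑ x))) 0)
        = ENNReal.ofReal (w (T F₀ (fderiv ℝ ϑ x))) := by
      intro x
      rcases le_total (w (T F₀ (fderiv ℝ ϑ x))) 0 with h1 | h1
      · rw [max_eq_right h1, ENNReal.ofReal_of_nonpos h1, ENNReal.ofReal_zero]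
      · rw [max_eq_left h1]
    simp only [e]
    exact lt_top_iff_ne_top.2 hfin
  have hWi : Integrable (fun x => w (T F₀ (fderiv ℝ ϑ x))) μ := by
    refine Integrable.mono' (hWp.add i3.abs) hm ?_
    filter_upwards [hpos] with x hx
    have h2 := hlow _ hx
    rw [Real.norm_eq_abs, Pi.add_apply]
    simp only [Pi.add_apply]
    rcases le_total 0 (w (T F₀ (fderiv ℝ ϑ x))) with h1 | h1
    · rw [abs_of_nonneg h1]
      have := le_max_left (w (T F₀ (fderiv ℝ ϑ x))) 0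
      have := abs_nonneg (wm c (T F₀ (fderiv ℝ ϑ x)) + mi A B C D (T F₀ (fderiv ℝ ϑ x)))
      linarith
    · rw [abs_of_nonpos h1]
      have := le_max_right (w (T F₀ (fderiv ℝ ϑ x))) 0
      have := neg_abs_le (wm c (T F₀ (fderiv ℝ ϑ x)) + mi A B C D (T F₀ (fderiv ℝ ϑ x)))
      linarith
  refine ⟨hWi, ?_⟩
  have h4 : ∫ x, (wm c (T F₀ (fderiv ℝ ϑ x)) + mi A B C D (T F₀ (fderiv ℝ ϑ x))) ∂μ
      ≤ ∫ x, w (T F₀ (fderiv ℝ ϑ x)) ∂μ :=
    integral_mono_ae i3 hWi (by filter_upwards [hpos] with x hx using hlow _ hx)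
  rw [integral_add i1' i2] at h4
  rw [heq, add_mul]
  linarith

end Pool.Agent.Y273.VS
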