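import Pool.Agent.Y273.VS.Glo

/-! # The theorem for functions with an additive volumetric-isochoric split -/

set_option autoImplicit false

namespace Pool.Agent.Y273.VS

open MeasureTheory Set Filter Topology
open Pool.Agent.Y273.VI
open Pool.Agent.W360.MQ (cab)
open Pool.Agent.W523.MQ.OM (T)

variable {h f : ℝ → ℝ}

theorem low_all (hR : RCp (hf h f)) {F0 : ℂ × ℂ} (hF0 : ‖F0.2‖ < ‖F0.1‖) :
    ∃ c A B C D : ℝ, 0 ≤ c ∧ 0 ≤ A ∧ 0 ≤ B ∧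
      (∀ F : ℂ × ℂ, ‖F.2‖ < ‖F.1‖ → wm c F + mi A B C D F ≤ hf h f F) ∧
      hf h f F0 = wm c F0 + mi A B C D F0 := by
  obtain ⟨β, h1, h2⟩ := exists_beta hR
  rcases le_total β 0 with h0 | h0
  · have h4 : ConvexOn ℝ (Ioi 0) (fun J => f J - -β * Real.log J) := by
      refine ⟨h1.1, fun x hx y hy p q hp hq hpq => ?_⟩
      have h3 := h1.2 hx hy hp hq hpq
      simp only [smul_eq_mul] at h3 ⊢
      linarith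
    obtain ⟨A, B, C, D, a1, a2, a3, a4⟩ := low_neg (c := -β) (by linarith) h2 h4 hF0
    exact ⟨-β, A, B, C, D, by linarith, a1, a2, a3, a4⟩
  · obtain ⟨A, B, C, D, a1, a2, a3, a4⟩ := low_pos h0 h2 h1 hF0
    exact ⟨0, A, B, C, D, le_rfl, a1, a2, a3, a4⟩

theorem hf_cont (hR : RCp (hf h f)) :
    ContinuousOn (hf h f) {F : ℂ × ℂ | ‖F.2‖ < ‖F.1‖} := by
  have hK : ContinuousOn KK {F : ℂ × ℂ | ‖F.2‖ < ‖F.1‖} := by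
    unfold KK
    refine ContinuousOn.div (by fun_prop) (by fun_prop) fun F hF => ?_
    have hF' : ‖F.2‖ < ‖F.1‖ := hF
    linarith
  have hJ : ContinuousOn JJ {F : ℂ × ℂ | ‖F.2‖ < ‖F.1‖} := by
    unfold JJ
    fun_prop
  unfold hf
  exact ((h_cont hR).comp hK fun F hF => KK_ge hF).add
    ((f_cont hR).comp hJ fun F hF => JJ_pos.2 hF)

theorem main_c (hR : RCp (hf h f)) {F₀ : Matrix (Fin 2) (Fin 2) ℝ} {Ω : Set (Fin 2 → ℝ)}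
    {ϑ : (Fin 2 → ℝ) → (Fin 2 → ℝ)} (hT : Tm Ω ϑ) (hF : ‖(cab F₀).2‖ < ‖(cab F₀).1‖)
    (hpos : ∀ᵐ x ∂(volume.restrict Ω), ‖(T F₀ (fderiv ℝ ϑ x)).2‖ < ‖(T F₀ (fderiv ℝ ϑ x)).1‖)
    (hfin : ∫⁻ x in Ω, ENNReal.ofReal (hf h f (T F₀ (fderiv ℝ ϑ x))) ≠ ⊤) :
    IntegrableOn (fun x => hf h f (T F₀ (fderiv ℝ ϑ x))) Ω ∧
      hf h f (cab F₀) * (volume Ω).toReal ≤ ∫ x in Ω, hf h f (T F₀ (fderiv ℝ ϑ x)) := by
  obtain ⟨c, A, B, C, D, h0, hA, hB, h1, h2⟩ := low_all hR hF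
  exact last_step (hf_cont hR) hT hF hpos hfin h0 hA hB h1 h2

open scoped Matrix.Norms.L2Operator in
theorem W_val (A : Matrix (Fin 2) (Fin 2) ℝ) (hA : 0 < A.det) :
    h (‖A‖ ^ 2 / A.det) + f A.det = hf h f (cab A) := by
  obtain ⟨h1, h2⟩ := Pool.Agent.W74.MQ.OPN.main A
  have hlt := (det_cab A).1 hA
  unfold hf KK JJ
  rw [h1, h2]
  congr 2
  have n2 : 0 < ‖(cab A).1‖ - ‖(cab A).2‖ := by linarith
  have n1 : 0 < ‖(cab A).1‖ + ‖(cab A).2‖ := by linarith [norm_nonneg (cab A).2]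
  have e : ‖(cab A).1‖ ^ 2 - ‖(cab A).2‖ ^ 2
      = (‖(cab A).1‖ + ‖(cab A).2‖) * (‖(cab A).1‖ - ‖(cab A).2‖) := by ring
  rw [e]
  field_simp

open scoped Matrix.Norms.L2Operator in
theorem split_main (h f : ℝ → ℝ) (W : Matrix (Fin 2) (Fin 2) ℝ → ℝ)
    (hW : ∀ A : Matrix (Fin 2) (Fin 2) ℝ, 0 < A.det → W A = h (‖A‖ ^ 2 / A.det) + f A.det)
    (hR : Rp W) (F₀ : Matrix (Fin 2) (Fin 2) ℝ) (h0 : 0 < F₀.det) {Ω : Set (Fin 2 → ℝ)}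
    {ϑ : (Fin 2 → ℝ) → (Fin 2 → ℝ)} (hT : Tm Ω ϑ)
    (hpos : ∀ᵐ x ∂(volume.restrict Ω), 0 < (F₀ + LinearMap.toMatrix'
      ((fderiv ℝ ϑ x : (Fin 2 → ℝ) →L[ℝ] (Fin 2 → ℝ)) :
        (Fin 2 → ℝ) →ₗ[ℝ] (Fin 2 → ℝ))).det)
    (hfin : ∫⁻ x in Ω, ENNReal.ofReal (W (F₀ + LinearMap.toMatrix'
      ((fderiv ℝ ϑ x : (Fin 2 → ℝ) →L[ℝ] (Fin 2 → ℝ)) :
        (Fin 2 → ℝ) →ₗ[ℝ] (Fin 2 → ℝ)))) ≠ ⊤) :
    IntegrableOn (fun x => W (F₀ + LinearMap.toMatrix'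
      ((fderiv ℝ ϑ x : (Fin 2 → ℝ) →L[ℝ] (Fin 2 → ℝ)) :
        (Fin 2 → ℝ) →ₗ[ℝ] (Fin 2 → ℝ)))) Ω ∧
    W F₀ * (volume Ω).toReal ≤ ∫ x in Ω, W (F₀ + LinearMap.toMatrix'
      ((fderiv ℝ ϑ x : (Fin 2 → ℝ) →L[ℝ] (Fin 2 → ℝ)) :
        (Fin 2 → ℝ) →ₗ[ℝ] (Fin 2 → ℝ))) := by
  have hW' : ∀ A : Matrix (Fin 2) (Fin 2) ℝ, 0 < A.det → W A = hf h f (cab A) := by
    intro A hA
    rw [hW A hA, W_val A hA]
  have hRc : RCp (hf h f) := RCp_of hW' hR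
  have hpos' : ∀ᵐ x ∂(volume.restrict Ω),
      ‖(T F₀ (fderiv ℝ ϑ x)).2‖ < ‖(T F₀ (fderiv ℝ ϑ x)).1‖ := by
    filter_upwards [hpos] with x hx
    exact (det_cab _).1 hx
  have hev : (fun x => W (F₀ + LinearMap.toMatrix'
      ((fderiv ℝ ϑ x : (Fin 2 → ℝ) →L[ℝ] (Fin 2 → ℝ)) :
        (Fin 2 → ℝ) →ₗ[ℝ] (Fin 2 → ℝ)))) =ᵐ[volume.restrict Ω]
      fun x => hf h f (T F₀ (fderiv ℝ ϑ x)) := by
    filter_upwards [hpos] with x hx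
    exact hW' _ hx
  have hfin' : ∫⁻ x in Ω, ENNReal.ofReal (hf h f (T F₀ (fderiv ℝ ϑ x))) ≠ ⊤ := by
    have e := lintegral_congr_ae (hev.fun_comp ENNReal.ofReal)
    simp only [Function.comp] at e
    rw [← e]
    exact hfin
  obtain ⟨h1, h2⟩ := main_c hRc hT ((det_cab F₀).1 h0) hpos' hfin'
  refine ⟨h1.congr_fun_ae hev.symm, ?_⟩
  rw [integral_congr_ae hev, hW' F₀ h0]
  exact h2

end Pool.Agent.Y273.VS
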