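import Pool.Agent.Y273.VS.Pos

/-! # Convex volumetric part: the global lower bound -/

set_option autoImplicit false

namespace Pool.Agent.Y273.VS

open MeasureTheory Set Filter Topology
open Pool.Agent.Y273.VI

variable {h f : ℝ → ℝ}

theorem scale_ex {β δ s1 v1 s v : ℝ} (hβ : 0 ≤ β) (hδ : 0 ≤ δ) (hδβ : δ * v1 ≤ β * (s1 + v1))
    (hv1 : 0 < v1) (hvs1 : v1 ≤ s1) (hv : 0 < v) (hvs : v ≤ s) :
    ∃ l : ℝ, 0 < l ∧ (l * s - s1) * (l * v - v1) ≤ 0 ∧
      2 * β - 2 * ((β + δ * (s1 - v1) / (s1 + v1)) / (s1 * v1) * (s * v)) * l ^ 2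
        + 2 * δ / (s1 + v1) * (s - v) * l = 0 := by
  have hs1 : 0 < s1 := by linarith
  have hs : 0 < s := by linarith
  set P : ℝ → ℝ := fun l => 2 * β - 2 * ((β + δ * (s1 - v1) / (s1 + v1)) / (s1 * v1) * (s * v))
    * l ^ 2 + 2 * δ / (s1 + v1) * (s - v) * l with hP
  have hPc : ContinuousOn P (uIcc (v1 / v) (s1 / s)) := by
    apply Continuous.continuousOn
    simp only [hP]
    fun_prop
  have hx : P (v1 / v) = (s * v1 - s1 * v) / (v * s1) * (-2 * β + 2 * δ * v1 / (s1 + v1)) := by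
    simp only [hP]
    field_simp
    ring
  have hy : P (s1 / s) = (s * v1 - s1 * v) / (s * v1) * (2 * β + 2 * δ * s1 / (s1 + v1)) := by
    simp only [hP]
    field_simp
    ring
  have h1 : -2 * β + 2 * δ * v1 / (s1 + v1) ≤ 0 := by
    have : 2 * δ * v1 / (s1 + v1) ≤ 2 * β := by
      rw [div_le_iff₀ (by positivity)]
      linarith
    linarith
  have h2 : 0 ≤ 2 * β + 2 * δ * s1 / (s1 + v1) := by positivity
  have hmem : (0 : ℝ) ∈ uIcc (P (v1 / v)) (P (s1 / s)) := by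
    rw [hx, hy]
    rcases le_total 0 (s * v1 - s1 * v) with hd | hd
    · have a1 : (s * v1 - s1 * v) / (v * s1) * (-2 * β + 2 * δ * v1 / (s1 + v1)) ≤ 0 :=
        mul_nonpos_of_nonneg_of_nonpos (by positivity) h1
      have a2 : 0 ≤ (s * v1 - s1 * v) / (s * v1) * (2 * β + 2 * δ * s1 / (s1 + v1)) :=
        mul_nonneg (by positivity) h2
      exact ⟨(min_le_left _ _).trans a1, a2.trans (le_max_right _ _)⟩
    · have a1 : 0 ≤ (s * v1 - s1 * v) / (v * s1) * (-2 * β + 2 * δ * v1 / (s1 + v1)) :=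
        mul_nonneg_of_nonpos_of_nonpos (div_nonpos_of_nonpos_of_nonneg hd (by positivity)) h1
      have a2 : (s * v1 - s1 * v) / (s * v1) * (2 * β + 2 * δ * s1 / (s1 + v1)) ≤ 0 :=
        mul_nonpos_of_nonpos_of_nonneg (div_nonpos_of_nonpos_of_nonneg hd (by positivity)) h2
      exact ⟨(min_le_right _ _).trans a2, a1.trans (le_max_left _ _)⟩
  obtain ⟨l, hl, hl0⟩ := intermediate_value_uIcc hPc hmem
  have hx0 : 0 < v1 / v := div_pos hv1 hv
  have hy0 : 0 < s1 / s := div_pos hs1 hs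
  rcases le_total (v1 / v) (s1 / s) with hxy | hxy
  · rw [uIcc_of_le hxy] at hl
    have b1 : v1 ≤ l * v := by rw [← div_le_iff₀ hv]; exact hl.1
    have b2 : l * s ≤ s1 := by rw [← le_div_iff₀ hs]; exact hl.2
    exact ⟨l, hx0.trans_le hl.1,
      mul_nonpos_of_nonpos_of_nonneg (by linarith) (by linarith), hl0⟩
  · rw [uIcc_of_ge hxy] at hl
    have b1 : s1 ≤ l * s := by rw [← div_le_iff₀ hs]; exact hl.1
    have b2 : l * v ≤ v1 := by rw [← le_div_iff₀ hv]; exact hl.2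
    exact ⟨l, hy0.trans_le hl.1,
      mul_nonpos_of_nonneg_of_nonpos (by linarith) (by linarith), hl0⟩

/-- the tangent inequality everywhere -/
theorem glob {β : ℝ} (hβ : 0 ≤ β) (hR : RCp (hf h (fun J => -β * Real.log J)))
    {s1 v1 s v k : ℝ} (hv1 : 0 < v1) (hvs1 : v1 ≤ s1) (hv : 0 < v) (hvs : v ≤ s)
    (hkβ : k ≤ β) (hδ : 0 ≤ k * (s1 / v1) + β)
    (hk : ∀ K, 1 ≤ K → (h (s1 / v1) - β * Real.log (s1 / v1)) + k * (K - s1 / v1)
      ≤ h K - β * Real.log K) :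
    w0 h β s1 v1 - (β + (k * (s1 / v1) + β) * (s1 - v1) / (s1 + v1)) / (s1 * v1)
      * (s * v - s1 * v1) + 2 * (k * (s1 / v1) + β) / (s1 + v1) * ((s - v) - (s1 - v1))
      ≤ w0 h β s v := by
  have hs1 : 0 < s1 := by linarith
  have hs : 0 < s := by linarith
  obtain ⟨l, hl0, hl1, hl2⟩ := scale_ex hβ hδ (by
    have : (k * (s1 / v1) + β) * v1 = k * s1 + β * v1 := by field_simp
    rw [this]
    nlinarith) hv1 hvs1 hv hvs
  have hT := tangent hR (s := l * s) (v := l * v) hv1 hvs1 (by positivity)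
    (mul_le_mul_of_nonneg_left hvs hl0.le) hl1 hk
  have hsc : w0 h β (l * s) (l * v) = w0 h β s v - 2 * β * Real.log l := by
    unfold w0
    have e1 : l * s / (l * v) = s / v := mul_div_mul_left _ _ hl0.ne'
    have e2 : l * s * (l * v) = l ^ 2 * (s * v) := by ring
    rw [e1, e2, Real.log_mul (by positivity) (by positivity), Real.log_pow]
    push_cast
    ring
  rw [hsc] at hT
  obtain ⟨κ, hκ⟩ : ∃ κ, κ = (β + (k * (s1 / v1) + β) * (s1 - v1) / (s1 + v1)) / (s1 * v1) :=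
    ⟨_, rfl⟩
  obtain ⟨e, he⟩ : ∃ e, e = 2 * (k * (s1 / v1) + β) / (s1 + v1) := ⟨_, rfl⟩
  rw [← hκ, ← he] at hT hl2 ⊢
  have hκ0 : 0 ≤ κ := by
    rw [hκ]
    have : 0 ≤ s1 - v1 := by linarith
    positivity
  have hlog : 1 - l⁻¹ ≤ Real.log l := Real.one_sub_inv_le_log_of_pos hl0
  have h1 := mul_le_mul_of_nonneg_left hlog (by linarith : 0 ≤ 2 * β)
  obtain ⟨a, ha⟩ : ∃ a, a = κ * (s * v) := ⟨_, rfl⟩
  obtain ⟨b, hb⟩ : ∃ b, b = e * (s - v) := ⟨_, rfl⟩
  have ha0 : 0 ≤ a := by rw [ha]; positivity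
  rw [← ha, ← hb] at hl2
  have h2 : 2 * β * (1 - l⁻¹) = (2 * a * l - b) * (l - 1) := by
    have : 2 * β = 2 * a * l ^ 2 - b * l := by linarith
    rw [this]
    field_simp
  rw [h2] at h1
  have h3 : 0 ≤ a * (l - 1) ^ 2 := by positivity
  have e1 : κ * (l * s * (l * v) - s1 * v1) = a * l ^ 2 - κ * (s1 * v1) := by rw [ha]; ring
  have e2 : e * (l * s - l * v - (s1 - v1)) = b * l - e * (s1 - v1) := by rw [hb]; ring
  have e3 : κ * (s * v - s1 * v1) = a - κ * (s1 * v1) := by rw [ha]; ring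
  have e4 : e * (s - v - (s1 - v1)) = b - e * (s1 - v1) := by rw [hb]; ring
  rw [e1, e2] at hT
  rw [e3, e4]
  nlinarith

/-- convex volumetric part -/
theorem low_pos {β : ℝ} (hβ : 0 ≤ β) (hR0 : RCp (hf h (fun J => -β * Real.log J)))
    (hf2 : ConvexOn ℝ (Ioi 0) (fun J => f J + β * Real.log J)) {F0 : ℂ × ℂ}
    (hF0 : ‖F0.2‖ < ‖F0.1‖) :
    ∃ A B C D : ℝ, 0 ≤ A ∧ 0 ≤ B ∧
      (∀ F : ℂ × ℂ, ‖F.2‖ < ‖F.1‖ → wm 0 F + mi A B C D F ≤ hf h f F) ∧
      hf h f F0 = wm 0 F0 + mi A B C D F0 := by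
  have hmono := h_mono hR0
  have hψ : ConvexOn ℝ (Ici 1) (fun K => h K + -β * Real.log K) := psi_conv hR0
  obtain ⟨s0, hs0⟩ : ∃ s0, s0 = ‖F0.1‖ + ‖F0.2‖ := ⟨_, rfl⟩
  obtain ⟨v0, hv0⟩ : ∃ v0, v0 = ‖F0.1‖ - ‖F0.2‖ := ⟨_, rfl⟩
  have hv00 : 0 < v0 := by rw [hv0]; linarith
  have hvs0 : v0 ≤ s0 := by rw [hv0, hs0]; linarith [norm_nonneg F0.2]
  have hs00 : 0 < s0 := by linarith
  have hKK : KK F0 = s0 / v0 := by rw [hs0, hv0]; rfl
  have hK0 : 1 ≤ s0 / v0 := by rw [← hKK]; exact KK_ge hF0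
  -- the slope
  obtain ⟨k, hk, hδ⟩ : ∃ k : ℝ, (∀ K, 1 ≤ K → (h (s0 / v0) - β * Real.log (s0 / v0))
      + k * (K - s0 / v0) ≤ h K - β * Real.log K) ∧ 0 ≤ k * (s0 / v0) + β := by
    rcases eq_or_lt_of_le hK0 with h0 | h0
    · refine ⟨-β, fun K hK => ?_, ?_⟩
      · rw [← h0, Real.log_one]
        have h1 := hmono (show (1 : ℝ) ∈ Ici 1 by simp) (show K ∈ Ici 1 from hK) hK
        have h2 := Real.log_le_sub_one_of_pos (by linarith : 0 < K)
        have h3 := mul_le_mul_of_nonneg_left h2 hβ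
        linarith
      · rw [← h0]
        linarith
    · obtain ⟨k, hk⟩ := sg hψ (v := s0 / v0) (by rw [interior_Ici]; exact h0)
      have hk' : ∀ K, 1 ≤ K → (h (s0 / v0) - β * Real.log (s0 / v0))
          + k * (K - s0 / v0) ≤ h K - β * Real.log K := by
        intro K hK
        have := hk K hK
        linarith
      refine ⟨k, hk', ?_⟩
      by_contra hneg
      push Not at hneg
      obtain ⟨K0, hK0d⟩ : ∃ K0, K0 = s0 / v0 := ⟨_, rfl⟩
      rw [← hK0d] at hk' hneg h0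
      -- a point just below
      have hcont : Tendsto (fun K : ℝ => k * K + β) (𝓝 K0) (𝓝 (k * K0 + β)) :=
        Continuous.tendsto (by fun_prop) _
      have hev : ∀ᶠ K in 𝓝 K0, k * K + β < 0 := hcont.eventually (gt_mem_nhds hneg)
      obtain ⟨η, hη, hη2⟩ := Metric.eventually_nhds_iff.1 hev
      obtain ⟨K, hKd⟩ : ∃ K, K = max ((1 + K0) / 2) (K0 - η / 2) := ⟨_, rfl⟩
      have hK1 : 1 < K := by rw [hKd]; exact lt_of_lt_of_le (by linarith) (le_max_left _ _)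
      have hK2 : K < K0 := by rw [hKd]; exact max_lt (by linarith) (by linarith)
      have hK3 : K0 - η / 2 ≤ K := by rw [hKd]; exact le_max_right _ _
      have h1 := hη2 (y := K) (by
        rw [Real.dist_eq, abs_of_nonpos (by linarith)]
        linarith)
      have h2 := hk' K hK1.le
      have h3 := hmono (show K ∈ Ici 1 from hK1.le) (show K0 ∈ Ici 1 from h0.le) hK2.le
      have h4 : Real.log K0 - Real.log K ≤ K0 / K - 1 := by
        rw [← Real.log_div (by linarith) (by linarith)]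
        exact Real.log_le_sub_one_of_pos (div_pos (by linarith) (by linarith))
      have h5 := mul_le_mul_of_nonneg_left h4 hβ
      have hKp : 0 < K := by linarith
      have h6 : K0 / K - 1 = (K0 - K) / K := by field_simp
      rw [h6] at h5
      have h7 : k * (K - K0) ≤ β * ((K0 - K) / K) := by linarith
      have h8 : k * (K - K0) * K ≤ β * (K0 - K) := by
        have h9 := mul_le_mul_of_nonneg_right h7 hKp.le
        refine h9.trans (le_of_eq ?_)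
        field_simp
      nlinarith
  have hJ0 := JJ_pos.2 hF0
  obtain ⟨μ, hμ⟩ := sub_J hf2 hJ0
  have hval : ∀ F : ℂ × ℂ, hf h f F = w0 h β (‖F.1‖ + ‖F.2‖) (‖F.1‖ - ‖F.2‖)
      + (f (JJ F) + β * Real.log (JJ F)) := by
    intro F
    rw [← w0_eq (F := F) rfl rfl]
    unfold hf
    ring
  have hwm : ∀ F : ℂ × ℂ, wm 0 F = 0 := fun F => by rw [wm_eq]; ring
  have hJv : s0 * v0 = JJ F0 := by rw [hs0, hv0]; unfold JJ; ring
  rcases le_total k β with hkβ | hkβ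
  · obtain ⟨κ, hκ⟩ : ∃ κ, κ = (β + (k * (s0 / v0) + β) * (s0 - v0) / (s0 + v0)) / (s0 * v0) :=
      ⟨_, rfl⟩
    obtain ⟨e, he⟩ : ∃ e, e = 2 * (k * (s0 / v0) + β) / (s0 + v0) := ⟨_, rfl⟩
    have he0 : 0 ≤ e := by rw [he]; positivity
    refine ⟨0, 2 * e, -κ + μ, w0 h β s0 v0 + κ * (s0 * v0) - e * (s0 - v0)
      + (f (JJ F0) + β * Real.log (JJ F0)) - μ * JJ F0, le_rfl, by positivity, ?_, ?_⟩
    · intro F hF
      have h1 := glob hβ hR0 hv00 hvs0 (s := ‖F.1‖ + ‖F.2‖) (v := ‖F.1‖ - ‖F.2‖)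
        (by linarith) (by linarith [norm_nonneg F.2]) hkβ hδ hk
      rw [← hκ, ← he] at h1
      have h3 := hμ _ (JJ_pos.2 hF)
      rw [hval F, hwm F]
      unfold mi
      have e1 : (‖F.1‖ + ‖F.2‖) * (‖F.1‖ - ‖F.2‖) = JJ F := by unfold JJ; ring
      have e2 : ‖F.1‖ ^ 2 - ‖F.2‖ ^ 2 = JJ F := rfl
      rw [e1] at h1
      rw [e2]
      linarith
    · rw [hval F0, hwm F0, ← hs0, ← hv0]
      unfold mi
      have e2 : ‖F0.1‖ ^ 2 - ‖F0.2‖ ^ 2 = JJ F0 := rfl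
      have e3 : 2 * ‖F0.2‖ = s0 - v0 := by rw [hs0, hv0]; ring
      rw [e2, hJv]
      linear_combination (-e) * e3
  · have hk0 : 0 ≤ k := hβ.trans hkβ
    obtain ⟨κ, hκ⟩ : ∃ κ, κ = 1 / v0 := ⟨_, rfl⟩
    have hκ0 : 0 < κ := by rw [hκ]; positivity
    have hκv : κ * v0 = 1 := by rw [hκ]; field_simp
    refine ⟨2 * κ * (k - β), 2 * κ * (k + β), -k * κ ^ 2 + μ,
      (h (s0 / v0) - β * Real.log (s0 / v0)) - k * (s0 / v0) - 2 * β * Real.log v0 + 2 * β
      + (f (JJ F0) + β * Real.log (JJ F0)) - μ * JJ F0, ?_, ?_, ?_, ?_⟩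
    · have : 0 ≤ k - β := by linarith
      positivity
    · positivity
    · intro F hF
      have h1 := hk _ (KK_ge hF)
      have h2 := mul_le_mul_of_nonneg_left (KK_low hF κ) hk0
      have h3 := hμ _ (JJ_pos.2 hF)
      have hvp : 0 < ‖F.1‖ - ‖F.2‖ := by linarith
      have h4 : Real.log (‖F.1‖ - ‖F.2‖) ≤ Real.log v0 + (κ * (‖F.1‖ - ‖F.2‖) - 1) := by
        have h5 := Real.log_le_sub_one_of_pos (mul_pos hκ0 hvp)
        rw [Real.log_mul hκ0.ne' hvp.ne'] at h5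
        have h6 : Real.log κ = -Real.log v0 := by rw [hκ, one_div, Real.log_inv]
        linarith
      have h5 := mul_le_mul_of_nonneg_left h4 hβ
      have h6 := log_KJ hF
      rw [hval F, hwm F]
      have e1 : w0 h β (‖F.1‖ + ‖F.2‖) (‖F.1‖ - ‖F.2‖) = h (KK F) - β * Real.log (JJ F) := by
        rw [← w0_eq (F := F) rfl rfl]
        unfold hf
        ring
      rw [e1]
      unfold mi
      have e2 : ‖F.1‖ ^ 2 - ‖F.2‖ ^ 2 = JJ F := rfl
      rw [e2]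
      have h7 : β * Real.log (JJ F) = β * Real.log (KK F)
          + 2 * (β * Real.log (‖F.1‖ - ‖F.2‖)) := by rw [h6]; ring
      linarith
    · rw [hval F0, hwm F0]
      have e1 : w0 h β (‖F0.1‖ + ‖F0.2‖) (‖F0.1‖ - ‖F0.2‖) = h (KK F0) - β * Real.log (JJ F0) := by
        rw [← w0_eq (F := F0) rfl rfl]
        unfold hf
        ring
      have h6 := log_KJ hF0
      rw [← hv0, hKK] at h6
      rw [e1, hKK]
      unfold mi
      have e2 : ‖F0.1‖ ^ 2 - ‖F0.2‖ ^ 2 = JJ F0 := rfl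
      have e3 : ‖F0.1‖ = (s0 + v0) / 2 := by rw [hs0, hv0]; ring
      have e4 : ‖F0.2‖ = (s0 - v0) / 2 := by rw [hs0, hv0]; ring
      have e5 : s0 / v0 = κ * s0 := by rw [hκ]; ring
      rw [e2, h6, ← hJv, e3, e4, e5]
      linear_combination (k * κ * s0 + 2 * β) * hκv

end Pool.Agent.Y273.VS
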