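import Pool.Agent.Y273.VS.Cls

/-! # The lower bounds -/

set_option autoImplicit false

namespace Pool.Agent.Y273.VS

open MeasureTheory Set Filter Topology
open Pool.Agent.Y273.VI

variable {h f : ℝ → ℝ}

/-- on the half line `K ≥ 1` the function `h + c log` is convex -/
theorem psi_conv {c : ℝ} (hR : RCp (hf h (fun J => c * Real.log J))) :
    ConvexOn ℝ (Ici 1) (fun K => h K + c * Real.log K) := by
  have h1 := diag_conv hR one_pos
  refine ⟨convex_Ici 1, fun x hx y hy p q hp hq hpq => ?_⟩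
  have hz := (convex_Ici (1 : ℝ)) hx hy hp hq hpq
  have hx' : (1 : ℝ) ≤ x := hx
  have hy' : (1 : ℝ) ≤ y := hy
  have hz' : (1 : ℝ) ≤ p • x + q • y := hz
  have h2 := h1.2 (show x ∈ Ioi 0 from lt_of_lt_of_le one_pos hx')
    (show y ∈ Ioi 0 from lt_of_lt_of_le one_pos hy') hp hq hpq
  simp only [max_eq_left hx', max_eq_left hy', max_eq_left hz', min_eq_right hx',
    min_eq_right hy', min_eq_right hz', div_one, mul_one] at h2
  exact h2

theorem log_KJ {F : ℂ × ℂ} (hF : ‖F.2‖ < ‖F.1‖) :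
    Real.log (JJ F) = Real.log (KK F) + 2 * Real.log (‖F.1‖ - ‖F.2‖) := by
  have h1 : 0 < ‖F.1‖ - ‖F.2‖ := by linarith
  have h2 : 0 < ‖F.1‖ + ‖F.2‖ := by linarith [norm_nonneg F.2]
  have e1 : JJ F = (‖F.1‖ + ‖F.2‖) * (‖F.1‖ - ‖F.2‖) := by unfold JJ; ring
  rw [e1, Real.log_mul h2.ne' h1.ne']
  unfold KK
  rw [Real.log_div h2.ne' h1.ne']
  ring

/-- the linear lower bound of `K` -/
theorem KK_low {F : ℂ × ℂ} (hF : ‖F.2‖ < ‖F.1‖) (κ : ℝ) :
    2 * κ * (‖F.1‖ + ‖F.2‖) - κ ^ 2 * JJ F ≤ KK F := by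
  have h1 : 0 < ‖F.1‖ - ‖F.2‖ := by linarith
  have h2 : 0 < ‖F.1‖ + ‖F.2‖ := by linarith [norm_nonneg F.2]
  unfold KK JJ
  rw [le_div_iff₀ h1]
  have : 0 ≤ (‖F.1‖ + ‖F.2‖) * (1 - κ * (‖F.1‖ - ‖F.2‖)) ^ 2 := by positivity
  nlinarith

theorem sub_J {f2 : ℝ → ℝ} (hf2 : ConvexOn ℝ (Ioi 0) f2) {J0 : ℝ} (hJ0 : 0 < J0) :
    ∃ μ, ∀ J, 0 < J → f2 J0 + μ * (J - J0) ≤ f2 J := by
  obtain ⟨μ, hμ⟩ := sg hf2 (v := J0) (by rw [interior_Ioi]; exact hJ0)
  exact ⟨μ, fun J hJ => hμ J hJ⟩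

/-- concave volumetric part -/
theorem low_neg {c : ℝ} (hc : 0 ≤ c) (hR0 : RCp (hf h (fun J => c * Real.log J)))
    (hf2 : ConvexOn ℝ (Ioi 0) (fun J => f J - c * Real.log J)) {F0 : ℂ × ℂ}
    (hF0 : ‖F0.2‖ < ‖F0.1‖) :
    ∃ A B C D : ℝ, 0 ≤ A ∧ 0 ≤ B ∧
      (∀ F : ℂ × ℂ, ‖F.2‖ < ‖F.1‖ → wm c F + mi A B C D F ≤ hf h f F) ∧
      hf h f F0 = wm c F0 + mi A B C D F0 := by
  have hmono := h_mono hR0
  have hP : ConvexOn ℝ (Ici 1) (fun K => h K + c * Real.log K - c * K) := by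
    have h1 := psi_conv hR0
    refine ⟨convex_Ici 1, fun x hx y hy p q hp hq hpq => ?_⟩
    have h2 := h1.2 hx hy hp hq hpq
    simp only [smul_eq_mul] at h2 ⊢
    linarith
  set P : ℝ → ℝ := fun K => h K + c * Real.log K - c * K with hPd
  -- the minimum is at one
  have hmin : ∀ K, 1 ≤ K → P 1 ≤ P K := by
    intro K hK
    by_contra hlt
    push Not at hlt
    have hK1 : 1 < K := by
      rcases eq_or_lt_of_le hK with h0 | h0
      · rw [← h0] at hlt
        exact absurd hlt (lt_irrefl _)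
      · exact h0
    set d : ℝ := P 1 - P K with hd
    have hd0 : 0 < d := by linarith
    have key : ∀ t : ℝ, 0 < t → t ≤ 1 → d ≤ c * (K - 1) ^ 2 * t := by
      intro t ht ht1
      have h1 := hP.2 (show (1 : ℝ) ∈ Ici 1 by simp) (show K ∈ Ici 1 from hK)
        (show 0 ≤ 1 - t by linarith) ht.le (by ring)
      simp only [smul_eq_mul] at h1
      set x : ℝ := (1 - t) * 1 + t * K with hx
      have hx1 : 1 ≤ x := by rw [hx]; nlinarith
      have h2 := hmono (show (1 : ℝ) ∈ Ici 1 by simp) (show x ∈ Ici 1 from hx1) hx1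
      have h3 : 1 - 1 / x ≤ Real.log x := by
        have := Real.one_sub_inv_le_log_of_pos (by linarith : 0 < x)
        rwa [one_div]
      have h4 : -(x - 1) ^ 2 ≤ Real.log x - x + 1 := by
        have h5 : 1 / x ≤ 1 := by rw [div_le_one (by linarith)]; exact hx1
        have h6 : x * (1 / x) = 1 := by field_simp
        nlinarith
      have h7 : P 1 - c * (x - 1) ^ 2 ≤ P x := by
        simp only [hPd]
        rw [Real.log_one]
        have := mul_le_mul_of_nonneg_left h4 hc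
        nlinarith
      have h8 : x - 1 = t * (K - 1) := by rw [hx]; ring
      rw [h8] at h7
      have h9 : t * d ≤ c * (t * (K - 1)) ^ 2 := by rw [hd]; nlinarith
      have h10 : t * d ≤ t * (c * (K - 1) ^ 2 * t) := by
        refine h9.trans (le_of_eq ?_)
        ring
      exact le_of_mul_le_mul_left h10 ht
    set E : ℝ := c * (K - 1) ^ 2 with hE
    have hE0 : 0 ≤ E := by positivity
    have h11 := key (min 1 (d / (2 * (E + 1)))) (lt_min one_pos (by positivity)) (min_le_left _ _)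
    have h12 : E * min 1 (d / (2 * (E + 1))) ≤ E * (d / (2 * (E + 1))) :=
      mul_le_mul_of_nonneg_left (min_le_right _ _) hE0
    have h13 : E * (d / (2 * (E + 1))) < d := by
      rw [mul_div_assoc', div_lt_iff₀ (by positivity)]
      nlinarith
    linarith
  have hK0 := KK_ge hF0
  obtain ⟨γ, hγ0, hγ⟩ : ∃ γ : ℝ, 0 ≤ γ ∧ ∀ K, 1 ≤ K → P (KK F0) + γ * (K - KK F0) ≤ P K := by
    rcases eq_or_lt_of_le hK0 with h0 | h0
    · refine ⟨0, le_rfl, fun K hK => ?_⟩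
      rw [← h0, zero_mul, add_zero]
      exact hmin K hK
    · obtain ⟨k, hk⟩ := sg hP (v := KK F0) (by rw [interior_Ici]; exact h0)
      refine ⟨k, ?_, fun K hK => hk K hK⟩
      have h1 := hk 1 (by simp)
      have h2 := hmin _ hK0
      by_contra hneg
      push Not at hneg
      have : 0 < k * (1 - KK F0) := mul_pos_of_neg_of_neg hneg (by linarith)
      have h3 : P (KK F0) + k * (1 - KK F0) ≤ P 1 := h1
      linarith
  have hJ0 := JJ_pos.2 hF0
  obtain ⟨μ, hμ⟩ := sub_J hf2 hJ0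
  have hv0 : 0 < ‖F0.1‖ - ‖F0.2‖ := by linarith
  set κ : ℝ := 1 / (‖F0.1‖ - ‖F0.2‖) with hκ
  have hκ0 : 0 < κ := by positivity
  have hval : ∀ F : ℂ × ℂ, ‖F.2‖ < ‖F.1‖ →
      hf h f F = wm c F + P (KK F) + (f (JJ F) - c * Real.log (JJ F)) := by
    intro F hF
    rw [wm_eq]
    have := log_KJ hF
    simp only [hPd]
    unfold hf
    rw [this]
    ring
  have hKv : KK F0 = 2 * κ * (‖F0.1‖ + ‖F0.2‖) - κ ^ 2 * JJ F0 := by
    unfold KK JJ
    rw [hκ]
    field_simp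
    ring
  refine ⟨2 * γ * κ, 2 * γ * κ, -γ * κ ^ 2 + μ, P (KK F0) - γ * KK F0
    + (f (JJ F0) - c * Real.log (JJ F0)) - μ * JJ F0, by positivity, by positivity, ?_, ?_⟩
  · intro F hF
    rw [hval F hF]
    have h1 := hγ _ (KK_ge hF)
    have h2 := mul_le_mul_of_nonneg_left (KK_low hF κ) hγ0
    have h3 := hμ _ (JJ_pos.2 hF)
    unfold mi
    have e : ‖F.1‖ ^ 2 - ‖F.2‖ ^ 2 = JJ F := rfl
    rw [e]
    linarith
  · rw [hval F0 hF0]
    unfold mi
    have e : ‖F0.1‖ ^ 2 - ‖F0.2‖ ^ 2 = JJ F0 := rfl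
    rw [e]
    linear_combination γ * hKv

end Pool.Agent.Y273.VS
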