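import Pool.Agent.Y273.VS.Low

/-! # Convex volumetric part -/

set_option autoImplicit false

namespace Pool.Agent.Y273.VS

open MeasureTheory Set Filter Topology
open Pool.Agent.Y273.VI

variable {h f : ℝ → ℝ}

/-- the value in terms of `s = |F₁| + |F₂|`, `v = |F₁| - |F₂|` -/
noncomputable def w0 (h : ℝ → ℝ) (β s v : ℝ) : ℝ := h (s / v) - β * Real.log (s * v)

theorem w0_eq {β : ℝ} {F : ℂ × ℂ} {s v : ℝ} (hs : ‖F.1‖ + ‖F.2‖ = s) (hv : ‖F.1‖ - ‖F.2‖ = v) :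
    hf h (fun J => -β * Real.log J) F = w0 h β s v := by
  unfold hf w0 KK JJ
  rw [hs, hv, ← hs, ← hv]
  have e : (‖F.1‖ + ‖F.2‖) * (‖F.1‖ - ‖F.2‖) = ‖F.1‖ ^ 2 - ‖F.2‖ ^ 2 := by ring
  rw [e]
  ring

/-- the linear functions and the norm along the line -/
noncomputable def Lt (x y t : ℝ) : ℝ := x + t * (y - x)

noncomputable def Pt (j j' q q' t : ℝ) : ℝ := Real.sqrt (Lt j j' t + Lt q q' t ^ 2)

noncomputable def Kt (j j' q q' t : ℝ) : ℝ :=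
  (Pt j j' q q' t + Lt q q' t) / (Pt j j' q q' t - Lt q q' t)

/-- convexity along the line -/
theorem on_line {β : ℝ} (hR : RCp (hf h (fun J => -β * Real.log J))) {s1 v1 s v : ℝ}
    (hv1 : 0 < v1) (hvs1 : v1 ≤ s1) (hv : 0 < v) (hvs : v ≤ s)
    (hc : (s - s1) * (v - v1) ≤ 0) {t : ℝ} (ht : t ∈ Icc (0 : ℝ) 1) :
    1 ≤ Kt (s1 * v1) (s * v) ((s1 - v1) / 2) ((s - v) / 2) t ∧
    h (Kt (s1 * v1) (s * v) ((s1 - v1) / 2) ((s - v) / 2) t)
      - β * Real.log (Lt (s1 * v1) (s * v) t)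
      ≤ (1 - t) * w0 h β s1 v1 + t * w0 h β s v := by
  have hs1 : 0 < s1 := by linarith
  have hs : 0 < s := by linarith
  obtain ⟨p1, hp1⟩ : ∃ p1, p1 = (s1 + v1) / 2 := ⟨_, rfl⟩
  obtain ⟨q1, hq1⟩ : ∃ q1, q1 = (s1 - v1) / 2 := ⟨_, rfl⟩
  obtain ⟨p, hp⟩ : ∃ p, p = (s + v) / 2 := ⟨_, rfl⟩
  obtain ⟨q, hq⟩ : ∃ q, q = (s - v) / 2 := ⟨_, rfl⟩
  rw [← hq1, ← hq]
  have hp10 : 0 < p1 := by rw [hp1]; positivity
  have hp0 : 0 < p := by rw [hp]; positivity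
  have hq10 : 0 ≤ q1 := by rw [hq1]; linarith
  have hq0 : 0 ≤ q := by rw [hq]; linarith
  have hpq : (p - p1) ^ 2 ≤ (q - q1) ^ 2 := by
    rw [hp, hp1, hq, hq1]
    nlinarith
  -- the direction
  obtain ⟨x, hx⟩ : ∃ x, x = (p ^ 2 + p1 ^ 2 - (q - q1) ^ 2) / (2 * p1) := ⟨_, rfl⟩
  have hxe : 2 * p1 * x = p ^ 2 + p1 ^ 2 - (q - q1) ^ 2 := by rw [hx]; field_simp
  have hx1 : x ≤ p := by nlinarith
  have hx2 : -p ≤ x := by
    have h1 : (q - q1) ^ 2 ≤ (p + p1) ^ 2 := by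
      have h2 : q - q1 ≤ p + p1 := by rw [hp, hp1, hq, hq1]; linarith
      have h3 : -(p + p1) ≤ q - q1 := by rw [hp, hp1, hq, hq1]; linarith
      nlinarith
    nlinarith
  obtain ⟨y, hy⟩ : ∃ y, y = Real.sqrt (p ^ 2 - x ^ 2) := ⟨_, rfl⟩
  have hy2 : y ^ 2 = p ^ 2 - x ^ 2 := by rw [hy]; exact Real.sq_sqrt (by nlinarith)
  obtain ⟨F1, hF1⟩ : ∃ F1 : ℂ × ℂ, F1 = ((p1 : ℂ), (q1 : ℂ)) := ⟨_, rfl⟩
  obtain ⟨H, hHd⟩ : ∃ H : ℂ × ℂ, H = (⟨x - p1, y⟩, ((q - q1 : ℝ) : ℂ)) := ⟨_, rfl⟩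
  have hHn : ‖H.1‖ = ‖H.2‖ := by
    simp only [hHd]
    rw [Complex.norm_real, Real.norm_eq_abs, Complex.norm_def, Complex.normSq_mk,
      ← Real.sqrt_sq_eq_abs]
    congr 1
    nlinarith
  have n1 : ‖F1.1‖ = p1 := by
    simp only [hF1]; rw [Complex.norm_real, Real.norm_of_nonneg hp10.le]
  have n2 : ‖F1.2‖ = q1 := by
    simp only [hF1]; rw [Complex.norm_real, Real.norm_of_nonneg hq10]
  have n3 : ‖(F1 + H).1‖ = p := by
    simp only [hF1, hHd, Prod.fst_add]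
    rw [Complex.norm_def, Complex.normSq_apply, ← Real.sqrt_sq hp0.le]
    congr 1
    simp only [Complex.add_re, Complex.add_im, Complex.ofReal_re, Complex.ofReal_im]
    nlinarith
  have n4 : ‖(F1 + H).2‖ = q := by
    simp only [hF1, hHd, Prod.snd_add]
    rw [← Complex.ofReal_add, Complex.norm_real, add_sub_cancel, Real.norm_of_nonneg hq0]
  have hl1 : ‖F1.2‖ < ‖F1.1‖ := by rw [n1, n2, hp1, hq1]; linarith
  have hl2 : ‖(F1 + H).2‖ < ‖(F1 + H).1‖ := by rw [n3, n4, hp, hq]; linarith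
  have w1 : hf h (fun J => -β * Real.log J) F1 = w0 h β s1 v1 :=
    w0_eq (by rw [n1, n2, hp1, hq1]; ring) (by rw [n1, n2, hp1, hq1]; ring)
  have w2 : hf h (fun J => -β * Real.log J) (F1 + H) = w0 h β s v :=
    w0_eq (by rw [n3, n4, hp, hq]; ring) (by rw [n3, n4, hp, hq]; ring)
  have hJF : JJ (F1 + t • H) = Lt (s1 * v1) (s * v) t := by
    rw [JJ_line hHn]
    unfold JJ Lt
    rw [n1, n2, n3, n4, hp1, hq1, hp, hq]
    ring
  have hQF : ‖(F1 + t • H).2‖ = Lt q1 q t := by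
    simp only [hF1, hHd, Prod.snd_add, Prod.smul_snd, Complex.real_smul]
    rw [← Complex.ofReal_mul, ← Complex.ofReal_add, Complex.norm_real, Real.norm_of_nonneg]
    · rfl
    · have h1 := mul_nonneg ht.1 hq0
      have h2 := mul_nonneg (sub_nonneg.2 ht.2) hq10
      nlinarith
  have hPF : ‖(F1 + t • H).1‖ = Pt (s1 * v1) (s * v) q1 q t := by
    unfold Pt
    rw [← hJF, ← hQF]
    unfold JJ
    rw [sub_add_cancel, Real.sqrt_sq (norm_nonneg _)]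
  have hKF : KK (F1 + t • H) = Kt (s1 * v1) (s * v) q1 q t := by
    unfold KK Kt
    rw [hQF, hPF]
  have hlt := line_lt hHn hl1 hl2 ht.1 ht.2
  refine ⟨by rw [← hKF]; exact KK_ge hlt, ?_⟩
  have h1 := hR F1 H hHn hl1 hl2 t ht.1 ht.2
  rw [w1, w2] at h1
  unfold hf at h1
  rw [hJF, hKF] at h1
  linarith

theorem dLt (x y : ℝ) : HasDerivAt (Lt x y) (y - x) 0 := by
  have h1 := ((hasDerivAt_id (0 : ℝ)).mul_const (y - x)).const_add x
  rw [one_mul] at h1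
  exact h1

theorem Lt0 (x y : ℝ) : Lt x y 0 = x := by unfold Lt; ring

theorem Pt0 {j j' q q' p : ℝ} (hp : 0 < p) (h : j + q ^ 2 = p ^ 2) : Pt j j' q q' 0 = p := by
  unfold Pt
  rw [Lt0, Lt0, h, Real.sqrt_sq hp.le]

theorem dPt {j j' q q' p : ℝ} (hp : 0 < p) (h : j + q ^ 2 = p ^ 2) :
    HasDerivAt (Pt j j' q q') (((j' - j) + 2 * q * (q' - q)) / (2 * p)) 0 := by
  have h1 := (dLt j j').add ((dLt q q').pow 2)
  have h2 := h1.sqrt (by
    simp only [Pi.add_apply, Pi.pow_apply]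
    rw [Lt0, Lt0, h]; positivity)
  refine h2.congr_deriv ?_
  simp only [Pi.add_apply, Pi.pow_apply]
  rw [Lt0, Lt0, h, Real.sqrt_sq hp.le]
  push_cast
  ring

theorem dKt {j j' q q' p : ℝ} (hq : 0 ≤ q) (hj : 0 < j) (hp : 0 < p) (h : j + q ^ 2 = p ^ 2) :
    HasDerivAt (Kt j j' q q')
      ((p + q) / (p - q) * (-(q / (p * j)) * (j' - j) + 2 / p * (q' - q))) 0 := by
  have hpq : q < p := by
    rw [← sq_lt_sq₀ hq hp.le]; linarith
  have hd : p - q ≠ 0 := by linarith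
  have h1 := ((dPt (j' := j') (q' := q') hp h).add (dLt q q')).div
    ((dPt (j' := j') (q' := q') hp h).sub (dLt q q')) (by
      simp only [Pi.sub_apply]
      rw [Pt0 hp h, Lt0]; exact hd)
  refine h1.congr_deriv ?_
  simp only [Pi.add_apply, Pi.sub_apply]
  rw [Pt0 hp h, Lt0]
  have hj' : j = (p + q) * (p - q) := by linarith
  have hs : p + q ≠ 0 := by linarith
  subst hj'
  field_simp
  ring

/-- the tangent inequality along rank-one lines -/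
theorem tangent {β : ℝ} (hR : RCp (hf h (fun J => -β * Real.log J))) {s1 v1 s v k : ℝ}
    (hv1 : 0 < v1) (hvs1 : v1 ≤ s1) (hv : 0 < v) (hvs : v ≤ s)
    (hc : (s - s1) * (v - v1) ≤ 0)
    (hk : ∀ K, 1 ≤ K → (h (s1 / v1) - β * Real.log (s1 / v1)) + k * (K - s1 / v1)
      ≤ h K - β * Real.log K) :
    w0 h β s1 v1 - (β + (k * (s1 / v1) + β) * (s1 - v1) / (s1 + v1)) / (s1 * v1)
      * (s * v - s1 * v1) + 2 * (k * (s1 / v1) + β) / (s1 + v1) * ((s - v) - (s1 - v1))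
      ≤ w0 h β s v := by
  have hs1 : 0 < s1 := by linarith
  obtain ⟨p1, hp1⟩ : ∃ p1, p1 = (s1 + v1) / 2 := ⟨_, rfl⟩
  obtain ⟨q1, hq1⟩ : ∃ q1, q1 = (s1 - v1) / 2 := ⟨_, rfl⟩
  obtain ⟨q, hq⟩ : ∃ q, q = (s - v) / 2 := ⟨_, rfl⟩
  obtain ⟨j, hj⟩ : ∃ j, j = s1 * v1 := ⟨_, rfl⟩
  obtain ⟨j', hj'⟩ : ∃ j', j' = s * v := ⟨_, rfl⟩
  have hp10 : 0 < p1 := by rw [hp1]; positivity
  have hq10 : 0 ≤ q1 := by rw [hq1]; linarith
  have hj0 : 0 < j := by rw [hj]; positivity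
  have hjp : j + q1 ^ 2 = p1 ^ 2 := by rw [hj, hq1, hp1]; ring
  have hKv : (p1 + q1) / (p1 - q1) = s1 / v1 := by
    rw [hp1, hq1]
    congr 1 <;> ring
  have hK00 : s1 / v1 ≠ 0 := (div_pos hs1 hv1).ne'
  have dK := dKt (j' := j') (q' := q) hq10 hj0 hp10 hjp
  have hK0 : Kt j j' q1 q 0 = s1 / v1 := by
    unfold Kt
    rw [Pt0 hp10 hjp, Lt0, hKv]
  rw [hKv] at dK
  obtain ⟨D, hD⟩ : ∃ D, D = -(q1 / (p1 * j)) * (j' - j) + 2 / p1 * (q - q1) := ⟨_, rfl⟩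
  rw [← hD] at dK
  have dlK : HasDerivAt (fun t => Real.log (Kt j j' q1 q t)) D 0 := by
    have := dK.log (by rw [hK0]; exact hK00)
    rw [hK0] at this
    refine this.congr_deriv ?_
    field_simp
  have dlJ : HasDerivAt (fun t => Real.log (Lt j j' t)) ((j' - j) / j) 0 := by
    have := (dLt j j').log (by rw [Lt0]; exact hj0.ne')
    rwa [Lt0] at this
  have a1 := (dLt (w0 h β s1 v1) (w0 h β s v))
  have a2 := ((dK.sub_const (s1 / v1)).const_mul k).const_add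
      (h (s1 / v1) - β * Real.log (s1 / v1))
  have dΦ := a1.sub ((a2.add (dlK.const_mul β)).sub (dlJ.const_mul β))
  have hfin := deriv_nonneg' dΦ (by
    simp only [Pi.sub_apply, Pi.add_apply]
    rw [hK0, Lt0, Lt0]
    unfold w0
    rw [hj, Real.log_div hs1.ne' hv1.ne', Real.log_mul hs1.ne' hv1.ne']
    ring) (by
    filter_upwards [Ioc_mem_nhdsGT one_pos] with t ht
    have ht' : t ∈ Icc (0 : ℝ) 1 := ⟨ht.1.le, ht.2⟩
    obtain ⟨h1, h2⟩ := on_line hR hv1 hvs1 hv hvs hc ht'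
    rw [← hj, ← hj', ← hq1, ← hq] at h1 h2
    have h3 := hk _ h1
    simp only [Pi.sub_apply, Pi.add_apply]
    unfold Lt at h2 ⊢
    linarith)
  have e1 : (s1 - v1) / (s1 + v1) = q1 / p1 := by
    rw [hp1, hq1]; field_simp
  have e2 : (β + (k * (s1 / v1) + β) * (s1 - v1) / (s1 + v1)) / j * (j' - j)
      = (β / j + (k * (s1 / v1) + β) * (q1 / (p1 * j))) * (j' - j) := by
    rw [mul_div_assoc, e1]
    field_simp
  have e3 : 2 * (k * (s1 / v1) + β) / (s1 + v1) * ((s - v) - (s1 - v1))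
      = (k * (s1 / v1) + β) * (2 / p1 * (q - q1)) := by
    rw [hp1, hq, hq1]
    field_simp
  rw [← hj, ← hj', e2, e3]
  have e4 : β * ((j' - j) / j) = β / j * (j' - j) := by ring
  rw [e4, hD] at hfin
  linarith

end Pool.Agent.Y273.VS
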